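import Pool.Agent.H32.BC.Defs

set_option autoImplicit false

/-!
Deleting edges: if the cycle space of `(E, ends)` is a cut space and `ι : E₁ → E` is injective then
the cycle space of `(E₁, ends ∘ ι)` is a cut space.

Proof. Let `J, a, b` be given for `E`. `J₁` = quotient of `J` by the equivalence relation generated by
`a e ~ b e` for `e ∉ range ι`; `a₁ = [a ∘ ι]`, `b₁ = [b ∘ ι]`. If `z₁ ∈ cyc (ends ∘ ι)`, extend it by zero to
`z` on `E`: `z ∈ cyc ends`, so `z e = q (a e) + q (b e)`; for `e ∉ range ι` `q (a e) = q (b e)`, so `q`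
descends to `J₁`. Conversely, given `q₁` on `J₁` let `q = q₁ ∘ [·]` and `z e = q (a e) + q (b e)`:
`z ∈ cyc ends`, `z e = 0` for `e ∉ range ι`, so `z₁ = z ∘ ι ∈ cyc (ends ∘ ι)` (the sums over `E` and `E₁`
agree, `Function.Injective.sum...` / `Finset.sum_subset`).
-/

namespace Pool.Agent.H32.BC

open Finset

theorem cut_sub {V E E₁ : Type} [Fintype E] [Fintype E₁] (ends : E → Sym2 V) (ι : E₁ → E)
    (hι : Function.Injective ι) (h : IsCutSpace (cyc ends)) :
    IsCutSpace (cyc (fun e => ends (ι e))) := by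
  classical
  obtain ⟨J, hJ, a, b, hab⟩ := h
  let r : J → J → Prop := fun x y => ∃ e, e ∉ Set.range ι ∧ a e = x ∧ b e = y
  have hfin : Finite (Quot r) := Finite.of_surjective (Quot.mk r) Quot.mk_surjective
  refine ⟨Quot r, hfin, fun e => Quot.mk r (a (ι e)), fun e => Quot.mk r (b (ι e)),
    fun z₁ => ?_⟩
  constructor
  · intro hz₁
    have hz : Function.extend ι z₁ 0 ∈ cyc ends := by
      intro x
      rw [← hz₁ x]
      symm
      refine Fintype.sum_of_injective ι hι _ _ ?_ ?_
      · intro e he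
        rw [Function.extend_apply' _ _ _ fun ⟨y, hy⟩ => he ⟨y, hy⟩, Pi.zero_apply, zero_mul]
      · intro e
        rw [hι.extend_apply]
    obtain ⟨q, hq⟩ := (hab _).1 hz
    refine ⟨Quot.lift q ?_, fun e => ?_⟩
    · rintro x y ⟨e, he, rfl, rfl⟩
      have h1 := hq e
      rw [Function.extend_apply' _ _ _ fun ⟨y, hy⟩ => he ⟨y, hy⟩, Pi.zero_apply] at h1
      exact CharTwo.add_eq_zero.mp h1.symm
    · have h1 := hq (ι e)
      rw [hι.extend_apply] at h1
      exact h1
  · rintro ⟨q₁, hq₁⟩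
    have hz : (fun e => q₁ (Quot.mk r (a e)) + q₁ (Quot.mk r (b e))) ∈ cyc ends :=
      (hab _).2 ⟨fun j => q₁ (Quot.mk r j), fun e => rfl⟩
    intro x
    rw [← hz x]
    refine Fintype.sum_of_injective ι hι _ _ ?_ ?_
    · intro e he
      have h1 : Quot.mk r (a e) = Quot.mk r (b e) := Quot.sound ⟨e, he, rfl, rfl⟩
      simp only
      rw [h1, CharTwo.add_self_eq_zero, zero_mul]
    · intro e
      rw [hq₁]

end Pool.Agent.H32.BC
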