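import Pool.Agent.H32.BC.Defs

set_option autoImplicit false

/-!
Counting in a cut space: if every nonzero member of `Z` has at least `g` edges then
`g (dim Z + 1) ≤ 2 |E|` (for `Z ≠ 0`).

Proof. `Z` is spanned by the vectors `χ j = (e ↦ [a e = j] + [b e = j])` (`q = Pi.single j 1`). Choose a
basis of `Z` among them (`exists_linearIndependent`, a finset `T` of vectors `χ j`, `|T| = dim Z`).
Every edge `e` is in the support of at most two of them (only `j = a e`, `j = b e`). Let
`z₀ = ∑_{z ∈ T} z`; it is nonzero (independence, `T` nonempty). For each `e`: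
`#{z ∈ T : z e ≠ 0} + (if z₀ e ≠ 0 then 1 else 0) ≤ 2`, since `z₀ e` is the parity of the number, which
is 0, 1 or 2. Sum over `e`: `g |T| + g ≤ ∑_{z ∈ T} |supp z| + |supp z₀| ≤ 2 |E|`.
-/

namespace Pool.Agent.H32.BC

open Finset

private theorem zmod_count (n : ℕ) (hn : n ≤ 2) (h : (n : ZMod 2) ≠ 0) : n + 1 ≤ 2 := by
  interval_cases n
  · omega
  · omega
  · exact absurd (by decide) h

private theorem zmod_ite (x : ZMod 2) : x = if x ≠ 0 then 1 else 0 := by
  revert x
  decide

theorem cut_count {E : Type} [Fintype E] (Z : Submodule (ZMod 2) (E → ZMod 2))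
    (hZ : IsCutSpace Z) (hne : Z ≠ ⊥) (g : ℕ) (hg : ∀ z ∈ Z, z ≠ 0 → g ≤ (supp z).card) :
    g * (Module.finrank (ZMod 2) Z + 1) ≤ 2 * Fintype.card E := by
  classical
  obtain ⟨J, hJ, a, b, hab⟩ := hZ
  have : Fintype J := Fintype.ofFinite J
  let χ : J → (E → ZMod 2) := fun j e => (if a e = j then 1 else 0) + (if b e = j then 1 else 0)
  have hχ : ∀ j, χ j ∈ Z := fun j => (hab _).2 ⟨fun i => if i = j then 1 else 0, fun e => rfl⟩
  have hspan : Submodule.span (ZMod 2) (Set.range χ) = Z := by
    apply le_antisymm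
    · rw [Submodule.span_le]
      rintro _ ⟨j, rfl⟩
      exact hχ j
    · intro z hz
      obtain ⟨q, hq⟩ := (hab z).1 hz
      have h1 : z = ∑ j, q j • χ j := by
        funext e
        rw [Finset.sum_apply, hq e]
        simp only [Pi.smul_apply, smul_eq_mul, χ, mul_add, mul_ite, mul_one, mul_zero,
          Finset.sum_add_distrib, Finset.sum_ite_eq, Finset.mem_univ, if_true]
      rw [h1]
      exact Submodule.sum_mem _ fun j _ => Submodule.smul_mem _ _
        (Submodule.subset_span ⟨j, rfl⟩)
  obtain ⟨t, ht1, ht2, ht3⟩ := exists_linearIndependent (ZMod 2) (Set.range χ)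
  have : Fintype t := (Set.toFinite t).fintype
  have hdim : Module.finrank (ZMod 2) Z = t.toFinset.card := by
    rw [← hspan, ← ht2]
    exact finrank_span_set_eq_card ht3
  have htZ : ∀ z ∈ t, z ∈ Z := by
    intro z hz
    rw [← hspan]
    exact Submodule.subset_span (ht1 hz)
  have hz0 : ∑ z ∈ t.toFinset, z ≠ 0 := by
    intro h
    have hT : t.Nonempty := by
      rw [Set.nonempty_iff_ne_empty]
      intro h0
      apply hne
      rw [← hspan, ← ht2, h0, Submodule.span_empty]
    obtain ⟨z, hz⟩ := hT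
    have h2 := Fintype.linearIndependent_iff.1 ht3 (fun _ => 1) (by
      simp only [one_smul]
      rw [← h]
      exact Finset.sum_set_coe t (f := fun z : E → ZMod 2 => z)) ⟨z, hz⟩
    exact one_ne_zero h2
  have hz0Z : ∑ z ∈ t.toFinset, z ∈ Z :=
    Submodule.sum_mem _ fun z hz => htZ z (Set.mem_toFinset.1 hz)
  have hcnt : ∀ e : E, (t.toFinset.filter (fun z => z e ≠ 0)).card +
      (if (∑ z ∈ t.toFinset, z) e ≠ 0 then 1 else 0) ≤ 2 := by
    intro e
    have h1 : (t.toFinset.filter (fun z => z e ≠ 0)).card ≤ 2 := by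
      refine (Finset.card_le_card (t := {χ (a e), χ (b e)}) ?_).trans Finset.card_le_two
      intro z hz
      rw [Finset.mem_filter, Set.mem_toFinset] at hz
      obtain ⟨j, rfl⟩ := ht1 hz.1
      rw [Finset.mem_insert, Finset.mem_singleton]
      by_cases h2 : a e = j
      · exact Or.inl (by rw [h2])
      · by_cases h3 : b e = j
        · exact Or.inr (by rw [h3])
        · exfalso
          apply hz.2
          simp only [χ, if_neg h2, if_neg h3, add_zero]
    have h2 : (∑ z ∈ t.toFinset, z) e = ((t.toFinset.filter (fun z => z e ≠ 0)).card : ZMod 2) := by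
      rw [Finset.sum_apply, Finset.card_filter, Nat.cast_sum]
      refine Finset.sum_congr rfl fun z _ => ?_
      rw [Nat.cast_ite, Nat.cast_one, Nat.cast_zero]
      exact zmod_ite (z e)
    split_ifs with h3
    · rw [h2] at h3
      exact zmod_count _ h1 h3
    · rw [add_zero]
      exact h1
  have hsum : ∑ z ∈ t.toFinset, (supp z).card + (supp (∑ z ∈ t.toFinset, z)).card =
      ∑ e : E, ((t.toFinset.filter (fun z => z e ≠ 0)).card +
        (if (∑ z ∈ t.toFinset, z) e ≠ 0 then 1 else 0)) := by
    rw [Finset.sum_add_distrib]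
    congr 1
    · simp only [supp, Finset.card_filter]
      rw [Finset.sum_comm]
    · simp only [supp, Finset.card_filter]
  have hlow : ∑ z ∈ t.toFinset, g ≤ ∑ z ∈ t.toFinset, (supp z).card := by
    refine Finset.sum_le_sum fun z hz => ?_
    rw [Set.mem_toFinset] at hz
    exact hg z (htZ z hz) (ht3.ne_zero ⟨z, hz⟩)
  have hlow2 := hg _ hz0Z hz0
  rw [Finset.sum_const, smul_eq_mul, ← hdim] at hlow
  have hup : ∑ e : E, ((t.toFinset.filter (fun z => z e ≠ 0)).card +
        (if (∑ z ∈ t.toFinset, z) e ≠ 0 then 1 else 0)) ≤ ∑ _e : E, 2 :=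
    Finset.sum_le_sum fun e _ => hcnt e
  rw [Finset.sum_const, smul_eq_mul, Finset.card_univ, ← hsum] at hup
  nlinarith

end Pool.Agent.H32.BC
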