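import Pool.Agent.H32.BC.Defs

set_option autoImplicit false

/-!
MacLane's property: the cycle space of a planar graph is a cut space (of the faces).

Proof. `hG = ⟨R, hR⟩`. `J = Quotient (Equiv.Perm.SameCycle.setoid R.faceStep)` (the faces),
`a e = face R (rep e)`, `b e = face R (rep e).symm`. Then `fun e => q (a e) + q (b e)` is `fbdry R q`
(definition). `z ∈ cyc Subtype.val ↔ bdry G z = 0` (the sum over darts `d` with `d.fst = v` of
`z d.edge` is the sum over the edges containing `v`: each edge containing `v` has exactly one dart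
starting at `v`). `←` is `bdry_fbdry`, `→` is `exists_sol`: `Q : G.Dart → ZMod 2` with
`Q d.symm = Q d + z d.edge`, `Q (R.next d) = Q d.symm`, so `Q (R.faceStep d) = Q (R.next d.symm) = Q d`,
`Q` is constant on the cycles of `faceStep` and descends to `q` on `J`. See the end of
`Pool/Agent/H29/Tor/Euler.lean` (there it is shown that `range (fbdry R) = ker (bdry G)`).
-/

namespace Pool.Agent.H32.BC

open Finset Pool.Agent.H29.Tor

private theorem bd_pair {V : Type} [DecidableEq V] (a b x : V) (hab : a ≠ b) :
    bd s(a, b) x = (Pi.single a (1 : ZMod 2) + Pi.single b (1 : ZMod 2) : V → ZMod 2) x := by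
  classical
  unfold bd
  rw [Pi.add_apply, Pi.single_apply, Pi.single_apply]
  by_cases h1 : x = a
  · subst h1
    rw [if_pos rfl, if_neg hab, if_pos (Sym2.mem_mk_left _ _), add_zero]
  · by_cases h2 : x = b
    · subst h2
      rw [if_neg h1, if_pos rfl, if_pos (Sym2.mem_mk_right _ _), zero_add]
    · rw [if_neg h1, if_neg h2, if_neg, add_zero]
      rw [Sym2.mem_iff]
      exact fun h => h.elim h1 h2

theorem planar_cut {V : Type} [Fintype V] (G : SimpleGraph V) [Fintype G.edgeSet]
    (hG : IsPlanar G) : IsCutSpace (cyc (V := V) (Subtype.val : G.edgeSet → Sym2 V)) := by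
  classical
  obtain ⟨R, hR⟩ := hG
  have hfin : Finite (Quotient (Equiv.Perm.SameCycle.setoid R.faceStep)) := inferInstance
  refine ⟨Quotient (Equiv.Perm.SameCycle.setoid R.faceStep), hfin, fun e => face R (rep e),
    fun e => face R (rep e).symm, fun z => ?_⟩
  have hcyc : z ∈ cyc (V := V) (Subtype.val : G.edgeSet → Sym2 V) ↔ bdry G z = 0 := by
    have h1 : ∀ e : G.edgeSet, bdry G (Pi.single e 1) =
        Pi.single (rep e).fst 1 + Pi.single (rep e).snd 1 := by
      intro e
      have h2 := bdry_single (rep e)
      have h3 : (⟨(rep e).edge, (rep e).edge_mem⟩ : G.edgeSet) = e := Subtype.ext (rep_edge e)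
      rw [h3] at h2
      exact h2
    have h2 : bdry G z = ∑ e, z e • (Pi.single (rep e).fst 1 + Pi.single (rep e).snd 1 :
        V → ZMod 2) := by
      have h3 : z = ∑ e, z e • (Pi.single e (1 : ZMod 2) : G.edgeSet → ZMod 2) := by
        funext e
        simp [Finset.sum_apply, Pi.single_apply]
      conv_lhs => rw [h3]
      rw [map_sum]
      refine Finset.sum_congr rfl fun e _ => ?_
      rw [map_smul, h1]
    have h3 : ∀ x, ∑ e : G.edgeSet, z e * bd (e : Sym2 V) x = bdry G z x := by
      intro x
      rw [h2, Finset.sum_apply]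
      refine Finset.sum_congr rfl fun e _ => ?_
      rw [Pi.smul_apply, smul_eq_mul]
      congr 1
      have h4 : (e : Sym2 V) = s((rep e).fst, (rep e).snd) := (rep_edge e).symm
      rw [← bd_pair _ _ _ (rep e).adj.ne, ← h4]
    constructor
    · intro h
      funext x
      rw [← h3 x]
      exact h x
    · intro h x
      rw [h3 x, h]
      rfl
  rw [hcyc]
  constructor
  · intro hz
    obtain ⟨Q, hQ⟩ := exists_sol R hR z hz
    have hf : ∀ d, Q (R.faceStep d) = Q d := by
      intro d
      have h1 := (hQ d.symm).2
      rw [SimpleGraph.Dart.symm_symm] at h1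
      exact h1
    have hn : ∀ (n : ℕ) (d : G.Dart), Q ((R.faceStep ^ n) d) = Q d := by
      intro n
      induction n with
      | zero => intro d; rfl
      | succ n ih =>
        intro d
        rw [pow_succ', Equiv.Perm.mul_apply, hf, ih]
    have hi : ∀ (i : ℤ) (d : G.Dart), Q ((R.faceStep ^ i) d) = Q d := by
      intro i d
      rcases i with n | n
      · exact hn n d
      · rw [zpow_negSucc]
        have h1 := hn (n + 1) ((R.faceStep ^ (n + 1))⁻¹ d)
        rw [← Equiv.Perm.mul_apply, mul_inv_cancel, Equiv.Perm.one_apply] at h1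
        exact h1.symm
    refine ⟨Quotient.lift Q ?_, ?_⟩
    · rintro d d' ⟨i, hid⟩
      rw [← hid, hi]
    · intro e
      change z e = Q (rep e) + Q (rep e).symm
      have h1 := (hQ (rep e)).1
      have h3 : (⟨(rep e).edge, (rep e).edge_mem⟩ : G.edgeSet) = e := Subtype.ext (rep_edge e)
      simp only [h3] at h1
      rw [h1, ← add_assoc, zmod2_add_self, zero_add]
  · rintro ⟨q, hq⟩
    have h1 : z = fbdry R q := funext hq
    rw [h1]
    exact bdry_fbdry R q

end Pool.Agent.H32.BC
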