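import Pool.Agent.H32.BC.Defs

/-!
A nonempty even edge set in a simple bipartite graph has at least 4 edges.

Proof. `exists_other`: if `z ∈ cyc ends`, `z e ≠ 0` and `x ∈ ends e` then there is `e' ≠ e` with
`z e' ≠ 0` and `x ∈ ends e'` (otherwise the sum at `x` is 1). Let `z e ≠ 0`, `ends e = s(x, y)`; at `y`
another edge `s(y, w)`, `w ≠ x` (injectivity of `ends`), at `x` another edge `s(x, u)`, `u ≠ y`; by the
colouring `s` `u ≠ w` and `w ≠ x, y`, `u ≠ x, y`; at `w` another edge `s(w, t)`, `t ≠ y`. The four edges are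
different: `s(x,y), s(y,w), s(x,u), s(w,t)`: `t ≠ y`, `w ≠ x`, `w ≠ u`.
-/

set_option autoImplicit false

namespace Pool.Agent.H32.BC

open Finset

theorem exists_other {V E : Type} [Fintype E] (ends : E → Sym2 V) (z : E → ZMod 2)
    (hz : z ∈ cyc ends) (e : E) (he : z e ≠ 0) (x : V) (hx : x ∈ ends e) :
    ∃ e', e' ≠ e ∧ z e' ≠ 0 ∧ x ∈ ends e' := by
  by_contra hcon
  have h1 : ∑ e', z e' * bd (ends e') x = 0 := hz x
  have h2 : ∑ e', z e' * bd (ends e') x = z e * bd (ends e) x := by
    apply Finset.sum_eq_single_of_mem e (mem_univ e)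
    intro e' _ hne
    by_cases h3 : z e' = 0
    · rw [h3, zero_mul]
    · have h4 : x ∉ ends e' := fun h => hcon ⟨e', hne, h3, h⟩
      unfold bd
      rw [if_neg h4, mul_zero]
  rw [h2] at h1
  unfold bd at h1
  rw [if_pos hx, mul_one] at h1
  exact he h1

theorem even4 {V E : Type} [Fintype E] (ends : E → Sym2 V) (hinj : Function.Injective ends)
    (s : V → Bool) (hs : ∀ e x y, ends e = s(x, y) → s x ≠ s y) (z : E → ZMod 2)
    (hz : z ∈ cyc ends) (hz0 : z ≠ 0) : 4 ≤ (supp z).card := by
  classical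
  obtain ⟨e, he⟩ : ∃ e, z e ≠ 0 := by
    by_contra h
    apply hz0
    funext e
    by_contra h2
    exact h ⟨e, h2⟩
  obtain ⟨x, y, hxy⟩ : ∃ x y, ends e = s(x, y) := by
    generalize ends e = t
    induction t using Sym2.ind with
    | _ a b => exact ⟨a, b, rfl⟩
  have sxy := hs e x y hxy
  obtain ⟨e1, h1e, hz1, hy1⟩ := exists_other ends z hz e he y (hxy ▸ Sym2.mem_mk_right x y)
  obtain ⟨w, hw⟩ := Sym2.mem_iff_exists.1 hy1
  have syw := hs e1 y w hw
  obtain ⟨e2, h2e, hz2, hx2⟩ := exists_other ends z hz e he x (hxy ▸ Sym2.mem_mk_left x y)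
  obtain ⟨u, hu⟩ := Sym2.mem_iff_exists.1 hx2
  have sxu := hs e2 x u hu
  obtain ⟨e3, h3e, hz3, hw3⟩ := exists_other ends z hz e1 hz1 w (hw ▸ Sym2.mem_mk_right y w)
  obtain ⟨t, ht⟩ := Sym2.mem_iff_exists.1 hw3
  have hwx : w ≠ x := by
    intro h
    apply h1e
    apply hinj
    rw [hw, hxy, h, Sym2.eq_swap]
  have huy : u ≠ y := by
    intro h
    apply h2e
    apply hinj
    rw [hu, hxy, h]
  have hwy : w ≠ y := fun h => syw (by rw [h])
  have hxy' : x ≠ y := fun h => sxy (by rw [h])
  have hwu : w ≠ u := by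
    intro h
    rw [h] at syw
    revert sxy syw sxu
    cases s x <;> cases s y <;> cases s u <;> simp
  have h12 : e1 ≠ e2 := by
    intro h
    rw [h, hu] at hw
    have : y ∈ s(x, u) := hw ▸ Sym2.mem_mk_left y w
    rcases Sym2.mem_iff.1 this with h | h
    · exact hxy' h.symm
    · exact huy h.symm
  have h30 : e3 ≠ e := by
    intro h
    rw [h, hxy] at ht
    have : w ∈ s(x, y) := ht ▸ Sym2.mem_mk_left w t
    rcases Sym2.mem_iff.1 this with h | h
    · exact hwx h
    · exact hwy h
  have h32 : e3 ≠ e2 := by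
    intro h
    rw [h, hu] at ht
    have : w ∈ s(x, u) := ht ▸ Sym2.mem_mk_left w t
    rcases Sym2.mem_iff.1 this with h | h
    · exact hwx h
    · exact hwu h
  have hsub : ({e, e1, e2, e3} : Finset E) ⊆ supp z := by
    intro a ha
    unfold supp
    rw [mem_filter]
    refine ⟨mem_univ _, ?_⟩
    simp only [mem_insert, mem_singleton] at ha
    rcases ha with h | h | h | h <;> rw [h] <;> assumption
  have hcard : ({e, e1, e2, e3} : Finset E).card = 4 := by
    rw [card_insert_of_notMem, card_insert_of_notMem, card_insert_of_notMem, card_singleton]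
    · rw [mem_singleton]
      exact h32.symm
    · simp only [mem_insert, mem_singleton]
      rintro (h | h)
      · exact h12 h
      · exact h3e h.symm
    · simp only [mem_insert, mem_singleton]
      rintro (h | h | h)
      · exact h1e h.symm
      · exact h2e h.symm
      · exact h30 h.symm
  calc 4 = ({e, e1, e2, e3} : Finset E).card := hcard.symm
    _ ≤ (supp z).card := card_le_card hsub

end Pool.Agent.H32.BC
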