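import Pool.Agent.H32.BC.Defs

/-!
Rank of the boundary map.

`rank_cyc`: `cyc ends` is the kernel of `z ↦ ∑ e, z e • bd (ends e)` (`Fintype.linearCombination`), whose
range is the span of the `bd (ends e)`; rank-nullity.

`rank_le`: all `bd (ends e)` vanish outside `B` and have sum 0 over `B` (two different ends, both in
`B`). So their span embeds into the kernel of the sum functional on `B → ZMod 2`, of dimension
`|B| - 1`.

`reach_span`: along a walk from `a` to `b` in `inG G B`, `[x = a] + [x = b]` is in the span (induction;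
the empty walk gives 0, and `bd s(x, y) = [x] + [y]` for `x ≠ y`).
-/

set_option autoImplicit false

namespace Pool.Agent.H32.BC

open Finset

theorem rank_cyc {V E : Type} [Fintype E] (ends : E → Sym2 V) :
    Module.finrank (ZMod 2) (cyc ends) +
      Module.finrank (ZMod 2) (Submodule.span (ZMod 2) (Set.range (fun e => bd (ends e)))) =
      Fintype.card E := by
  have h1 : cyc ends = LinearMap.ker (Fintype.linearCombination (ZMod 2)
      (fun e => bd (ends e))) := by
    ext z
    rw [LinearMap.mem_ker, Fintype.linearCombination_apply]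
    constructor
    · intro h
      funext x
      have h2 := h x
      rw [Finset.sum_apply]
      exact h2
    · intro h x
      have h2 := congrFun h x
      rw [Finset.sum_apply] at h2
      exact h2
  rw [h1, ← Fintype.range_linearCombination, add_comm,
    LinearMap.finrank_range_add_finrank_ker, Module.finrank_fintype_fun_eq_card]

open Classical in
/-- the indicator of a point -/
private noncomputable def rkI {V : Type} (a : V) : V → ZMod 2 := fun x => if x = a then 1 else 0

private theorem rk_bd {V : Type} (a b : V) (hab : a ≠ b) : bd s(a, b) = rkI a + rkI b := by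
  funext x
  rw [Pi.add_apply]
  unfold bd rkI
  by_cases h1 : x = a
  · rw [if_pos (Sym2.mem_iff.2 (Or.inl h1)), if_pos h1, if_neg (fun h => hab (h1 ▸ h)), add_zero]
  · by_cases h2 : x = b
    · rw [if_pos (Sym2.mem_iff.2 (Or.inr h2)), if_neg h1, if_pos h2, zero_add]
    · rw [if_neg (fun h => (Sym2.mem_iff.1 h).elim h1 h2), if_neg h1, if_neg h2, add_zero]

private theorem rk_two {V : Type} (f : V → ZMod 2) : f + f = 0 := by
  funext x
  rw [Pi.add_apply, Pi.zero_apply]
  exact CharTwo.add_self_eq_zero _

/-- functions vanishing outside `B` with sum zero -/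
private def rkW {V : Type} (B : Finset V) : Submodule (ZMod 2) (V → ZMod 2) where
  carrier := {f | (∀ x, x ∉ B → f x = 0) ∧ ∑ x ∈ B, f x = 0}
  zero_mem' := ⟨fun _ _ => rfl, by simp⟩
  add_mem' := by
    intro f g hf hg
    refine ⟨fun x hx => ?_, ?_⟩
    · rw [Pi.add_apply, hf.1 x hx, hg.1 x hx, add_zero]
    · simp only [Pi.add_apply]
      rw [Finset.sum_add_distrib, hf.2, hg.2, add_zero]
  smul_mem' := by
    intro c f hf
    refine ⟨fun x hx => ?_, ?_⟩
    · rw [Pi.smul_apply, hf.1 x hx, smul_zero]
    · simp only [Pi.smul_apply, smul_eq_mul]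
      rw [← Finset.mul_sum, hf.2, mul_zero]

private theorem rk_mem {V : Type} {B : Finset V} {f : V → ZMod 2} :
    f ∈ rkW B ↔ (∀ x, x ∉ B → f x = 0) ∧ ∑ x ∈ B, f x = 0 := Iff.rfl

private theorem rk_sum {V : Type} (B : Finset V) (a : V) (ha : a ∈ B) :
    ∑ x ∈ B, rkI a x = 1 := by
  classical
  unfold rkI
  rw [Finset.sum_ite_eq' B a (fun _ => (1 : ZMod 2)), if_pos ha]

theorem rank_le {V E : Type} [Fintype V] [Fintype E] (ends : E → Sym2 V) (B : Finset V)
    (hB : B.Nonempty) (hends : ∀ e, ∀ x ∈ ends e, x ∈ B) (hd : ∀ e, ¬ (ends e).IsDiag) :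
    Module.finrank (ZMod 2) (Submodule.span (ZMod 2) (Set.range (fun e => bd (ends e)))) + 1 ≤
      B.card := by
  classical
  have h1 : Submodule.span (ZMod 2) (Set.range (fun e => bd (ends e))) ≤ rkW B := by
    rw [Submodule.span_le]
    rintro _ ⟨e, rfl⟩
    show bd (ends e) ∈ rkW B
    have h2 := hends e
    have h3 := hd e
    revert h2 h3
    generalize ends e = s
    induction s using Sym2.ind with
    | _ a b =>
      intro h2 h3
      have hab : a ≠ b := fun h => h3 (Sym2.mk_isDiag_iff.2 h)
      have haB : a ∈ B := h2 a (Sym2.mem_mk_left a b)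
      have hbB : b ∈ B := h2 b (Sym2.mem_mk_right a b)
      rw [rk_bd a b hab, rk_mem]
      refine ⟨?_, ?_⟩
      · intro x hx
        rw [Pi.add_apply]
        unfold rkI
        rw [if_neg (fun h : x = a => hx (h ▸ haB)), if_neg (fun h : x = b => hx (h ▸ hbB)),
          add_zero]
      · simp only [Pi.add_apply]
        rw [Finset.sum_add_distrib, rk_sum B a haB, rk_sum B b hbB]
        decide
  have h2 : Module.finrank (ZMod 2)
      (Submodule.span (ZMod 2) (Set.range (fun e => bd (ends e)))) ≤
      Module.finrank (ZMod 2) (rkW B) := Submodule.finrank_mono h1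
  -- the sum functional on functions on B
  obtain ⟨σ, hσ⟩ : ∃ σ : (↥B → ZMod 2) →ₗ[ZMod 2] ZMod 2, ∀ f, σ f = ∑ x, f x :=
    ⟨∑ x : ↥B, LinearMap.proj x, fun f => by simp⟩
  have h3 : Module.finrank (ZMod 2) (rkW B) ≤ Module.finrank (ZMod 2) (LinearMap.ker σ) := by
    let r : (V → ZMod 2) →ₗ[ZMod 2] (↥B → ZMod 2) :=
      LinearMap.funLeft (ZMod 2) (ZMod 2) (fun x : ↥B => (x : V))
    have hr : ∀ f : rkW B, r f.1 ∈ LinearMap.ker σ := by
      intro f
      rw [LinearMap.mem_ker, hσ]
      have := (rk_mem.1 f.2).2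
      rw [← Finset.sum_coe_sort B (fun x => f.1 x)] at this
      exact this
    refine LinearMap.finrank_le_finrank_of_injective
      (f := LinearMap.codRestrict (LinearMap.ker σ) (r.comp (rkW B).subtype) hr) ?_
    intro f g hfg
    apply Subtype.ext
    funext x
    by_cases hx : x ∈ B
    · have h4 := congrArg Subtype.val hfg
      have h5 := congrFun h4 ⟨x, hx⟩
      exact h5
    · rw [(rk_mem.1 f.2).1 x hx, (rk_mem.1 g.2).1 x hx]
  have h4 := LinearMap.finrank_range_add_finrank_ker σ
  rw [Module.finrank_fintype_fun_eq_card, Fintype.card_coe] at h4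
  have h5 : 1 ≤ Module.finrank (ZMod 2) (LinearMap.range σ) := by
    obtain ⟨b, hb⟩ := hB
    have h6 : (1 : ZMod 2) ∈ LinearMap.range σ := by
      refine ⟨fun x => if x = ⟨b, hb⟩ then 1 else 0, ?_⟩
      rw [hσ, Finset.sum_ite_eq' univ (⟨b, hb⟩ : ↥B) (fun _ => (1 : ZMod 2)),
        if_pos (mem_univ _)]
    have h7 : LinearMap.range σ ≠ ⊥ := by
      intro h
      rw [h, Submodule.mem_bot] at h6
      exact one_ne_zero h6
    have := Submodule.one_le_finrank_iff.2 h7
    exact this
  omega

theorem reach_span {V E₀ : Type} (G : SimpleGraph V) (B : Set V) (e₀ : E₀ → Sym2 V)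
    (hsurj : ∀ x y, (inG G B).Adj x y → ∃ e, e₀ e = s(x, y)) (a b : V) (hab : a ≠ b)
    (h : (inG G B).Reachable a b) :
    bd s(a, b) ∈ Submodule.span (ZMod 2) (Set.range (fun e => bd (e₀ e))) := by
  rw [rk_bd a b hab]
  obtain ⟨w⟩ := h
  clear hab
  induction w with
  | nil =>
    rw [rk_two]
    exact Submodule.zero_mem _
  | @cons u v w' huv p ih =>
    obtain ⟨e, he⟩ := hsurj u v huv
    have h1 : rkI u + rkI v ∈ Submodule.span (ZMod 2) (Set.range (fun e => bd (e₀ e))) := by
      rw [← rk_bd u v huv.ne, ← he]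
      exact Submodule.subset_span ⟨e, rfl⟩
    have h2 := Submodule.add_mem _ h1 ih
    have h3 : rkI u + rkI v + (rkI v + rkI w') = rkI u + rkI w' := by
      have h4 := rk_two (rkI v)
      calc rkI u + rkI v + (rkI v + rkI w') = rkI u + (rkI v + rkI v) + rkI w' := by abel
        _ = rkI u + rkI w' := by rw [h4, add_zero]
    rwa [h3] at h2

end Pool.Agent.H32.BC
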