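import Pool.Agent.H32.BC.Defs

set_option autoImplicit false

/-!
Suppressing vertices of degree two: the edges are those of `E₀` and, for `i : I`, the two edges
`v i — a i` and `v i — b i`, where `v i` is on no other edge. Replacing each of these pairs by one edge
`a i — b i` keeps the property of being a cut space.

Proof. Let `J, A, B` be given for the old edge set. For the new one take the same `J`, and
`A' (inl e) = A (inl e)`, `A' (inr i) = A (inr (inl i))`, the same for `B'`. If `z'` is in the new cycle
space then `z (inl e) = z' (inl e)`, `z (inr (inl i)) = z (inr (inr i)) = z' (inr i)` is in the old one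
(at `v i`: `z' (inr i)` twice; at another vertex `x`: `bd s(v i, a i) x + bd s(v i, b i) x =
bd s(a i, b i) x` as `a i ≠ b i`). Conversely for `z` in the old cycle space the condition at `v i` gives
`z (inr (inl i)) = z (inr (inr i))` (`v` injective, `v i` not an end of other edges), and the
conditions at the other vertices give that `z' = z` (read at `inl e`, `inr (inl i)`) is in the new
cycle space (at `x = v j` all terms of the new condition are 0).
-/

namespace Pool.Agent.H32.BC

open Finset

private theorem two_zero (x : ZMod 2) : x + x = 0 := by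
  revert x
  decide

private theorem bd_two {V : Type} (v a b x : V) (hva : v ≠ a) (hvb : v ≠ b) (hab : a ≠ b) :
    bd s(v, a) x + bd s(v, b) x = bd s(a, b) x := by
  classical
  unfold bd
  simp only [Sym2.mem_iff]
  by_cases h1 : x = v
  · subst h1
    have h2 : ¬ (x = a ∨ x = b) := by
      rintro (h | h)
      · exact hva h
      · exact hvb h
    rw [if_pos (Or.inl rfl), if_pos (Or.inl rfl), if_neg h2]
    exact two_zero 1
  · by_cases h2 : x = a
    · have h3 : x ≠ b := fun h => hab (h2.symm.trans h)
      rw [if_pos (Or.inr h2), if_neg (by rintro (h | h); exacts [h1 h, h3 h]),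
        if_pos (Or.inl h2), add_zero]
    · by_cases h3 : x = b
      · rw [if_neg (by rintro (h | h); exacts [h1 h, h2 h]), if_pos (Or.inr h3),
          if_pos (Or.inr h3), zero_add]
      · rw [if_neg (by rintro (h | h); exacts [h1 h, h2 h]),
          if_neg (by rintro (h | h); exacts [h1 h, h3 h]),
          if_neg (by rintro (h | h); exacts [h2 h, h3 h]), zero_add]

theorem cut_ser {V E₀ I : Type} [Fintype E₀] [Fintype I] (e₀ : E₀ → Sym2 V) (v a b : I → V)
    (hv : Function.Injective v) (hv0 : ∀ i e, v i ∉ e₀ e) (hva : ∀ i j, v i ≠ a j)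
    (hvb : ∀ i j, v i ≠ b j) (hab : ∀ i, a i ≠ b i)
    (h : IsCutSpace (cyc (V := V) (Sum.elim e₀ (Sum.elim (fun i => s(v i, a i))
      (fun i => s(v i, b i)))))) :
    IsCutSpace (cyc (V := V) (Sum.elim e₀ (fun i => s(a i, b i)))) := by
  classical
  obtain ⟨J, hJ, A, B, hAB⟩ := h
  refine ⟨J, hJ, Sum.elim (fun e => A (Sum.inl e)) (fun i => A (Sum.inr (Sum.inl i))),
    Sum.elim (fun e => B (Sum.inl e)) (fun i => B (Sum.inr (Sum.inl i))), fun z => ?_⟩
  -- the corresponding function on the old edges
  obtain ⟨y, hy⟩ : ∃ y : E₀ ⊕ (I ⊕ I) → ZMod 2, y = Sum.elim (fun e => z (Sum.inl e))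
      (Sum.elim (fun i => z (Sum.inr i)) (fun i => z (Sum.inr i))) := ⟨_, rfl⟩
  have claim1 : z ∈ cyc (V := V) (Sum.elim e₀ (fun i => s(a i, b i))) ↔
      y ∈ cyc (V := V) (Sum.elim e₀ (Sum.elim (fun i => s(v i, a i)) (fun i => s(v i, b i)))) := by
    have hsum : ∀ x : V, ∑ e, z e * bd (Sum.elim e₀ (fun i => s(a i, b i)) e) x
        = ∑ e, y e * bd (Sum.elim e₀ (Sum.elim (fun i => s(v i, a i))
          (fun i => s(v i, b i))) e) x := by
      intro x
      rw [Fintype.sum_sum_type, Fintype.sum_sum_type, Fintype.sum_sum_type, hy]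
      simp only [Sum.elim_inl, Sum.elim_inr]
      rw [← Finset.sum_add_distrib]
      congr 1
      refine Finset.sum_congr rfl fun i _ => ?_
      rw [← mul_add, bd_two _ _ _ x (hva i i) (hvb i i) (hab i)]
    constructor
    · intro hz x
      rw [← hsum x]
      exact hz x
    · intro hz x
      rw [hsum x]
      exact hz x
  have claim2 : ∀ u ∈ cyc (V := V) (Sum.elim e₀ (Sum.elim (fun i => s(v i, a i))
      (fun i => s(v i, b i)))), ∀ i, u (Sum.inr (Sum.inl i)) = u (Sum.inr (Sum.inr i)) := by
    intro u hu i
    have h1 : ∑ e, u e * bd (Sum.elim e₀ (Sum.elim (fun i => s(v i, a i))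
          (fun i => s(v i, b i))) e) (v i) = 0 := hu (v i)
    rw [Fintype.sum_sum_type, Fintype.sum_sum_type] at h1
    simp only [Sum.elim_inl, Sum.elim_inr] at h1
    have h2 : ∑ e, u (Sum.inl e) * bd (e₀ e) (v i) = 0 := by
      refine Finset.sum_eq_zero fun e _ => ?_
      unfold bd
      rw [if_neg (hv0 i e), mul_zero]
    have h3 : ∑ j, u (Sum.inr (Sum.inl j)) * bd s(v j, a j) (v i)
        = u (Sum.inr (Sum.inl i)) := by
      rw [Finset.sum_eq_single i]
      · unfold bd
        rw [if_pos (by simp), mul_one]
      · intro j _ hj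
        unfold bd
        rw [if_neg, mul_zero]
        rw [Sym2.mem_iff]
        rintro (h | h)
        · exact hj (hv h).symm
        · exact hva i j h
      · intro hi
        exact absurd (Finset.mem_univ i) hi
    have h4 : ∑ j, u (Sum.inr (Sum.inr j)) * bd s(v j, b j) (v i)
        = u (Sum.inr (Sum.inr i)) := by
      rw [Finset.sum_eq_single i]
      · unfold bd
        rw [if_pos (by simp), mul_one]
      · intro j _ hj
        unfold bd
        rw [if_neg, mul_zero]
        rw [Sym2.mem_iff]
        rintro (h | h)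
        · exact hj (hv h).symm
        · exact hvb i j h
      · intro hi
        exact absurd (Finset.mem_univ i) hi
    rw [h2, h3, h4, zero_add] at h1
    have h5 : u (Sum.inr (Sum.inl i)) = u (Sum.inr (Sum.inl i)) +
        (u (Sum.inr (Sum.inr i)) + u (Sum.inr (Sum.inr i))) := by
      rw [two_zero, add_zero]
    rw [h5, ← add_assoc, h1, zero_add]
  constructor
  · intro hz
    obtain ⟨q, hq⟩ := (hAB y).mp (claim1.mp hz)
    refine ⟨q, fun e => ?_⟩
    rcases e with e | i
    · have h1 := hq (Sum.inl e)
      rw [hy] at h1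
      exact h1
    · have h1 := hq (Sum.inr (Sum.inl i))
      rw [hy] at h1
      exact h1
  · rintro ⟨q, hq⟩
    have hu : (fun e => q (A e) + q (B e)) ∈ cyc (V := V) (Sum.elim e₀
        (Sum.elim (fun i => s(v i, a i)) (fun i => s(v i, b i)))) :=
      (hAB _).mpr ⟨q, fun e => rfl⟩
    have hc2 := claim2 _ hu
    have hyu : y = fun e => q (A e) + q (B e) := by
      rw [hy]
      funext e
      rcases e with e | i | i
      · exact hq (Sum.inl e)
      · exact hq (Sum.inr i)
      · have h1 := hq (Sum.inr i)
        have h2 := hc2 i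
        show z (Sum.inr i) = q (A (Sum.inr (Sum.inr i))) + q (B (Sum.inr (Sum.inr i)))
        rw [← h2]
        exact h1
    rw [claim1, hyu]
    exact hu

end Pool.Agent.H32.BC
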