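import Pool.Agent.H32.BC.CutCount
import Pool.Agent.H32.BC.CutPlanar
import Pool.Agent.H32.BC.CutSub
import Pool.Agent.H32.BC.CutSer
import Pool.Agent.H32.BC.Even4
import Pool.Agent.H32.BC.Rank

set_option autoImplicit false

/-!
The counting lemma. `G` planar without triangles, `I` a nonempty independent set, `s` a proper
2-colouring of the rest `B`, and every `v ∈ I` has two neighbours `a v`, `b v` with different colours
and joined by a walk in `B`. Then the number of different pairs `{a v, b v}` is at most `|B| - 3`.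

Proof. Choose `I' ⊆ I` on which `v ↦ s(a v, b v)` is injective with the same image
(`Finset.exists_subset_injOn_image_eq` or similar). `E₀` = the edges of `G` inside `B` (subtype of
`Sym2 V`), `e₀` the inclusion. The map `E₀ ⊕ (I' ⊕ I') → G.edgeSet`, `v ↦ s(v, a v)`, `v ↦ s(v, b v)`, is
injective (`a v ≠ b v` by the colours, `a v, b v ∉ I` as `I` is independent). `planar_cut`, `cut_sub`,
`cut_ser` show that `Z = cyc (Sum.elim e₀ (fun v => s(a v, b v)))` is a cut space. The ends are
injective: injective on `I'`, and `s(a v, b v)` is not an edge of `G` (no triangle `v, a v, b v`), they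
join different colours of `s`: `even4` gives `4 ≤ |supp z|` for nonzero `z ∈ Z`. Let `r` be the
dimension of the span of the `bd (e₀ e)`; it is also that of the span for `Sum.elim e₀ ..`
(`reach_span`). `rank_cyc`: `dim Z = |E₀| + |I'| - r`, and `|E₀| ≥ r`. `rank_le`: `r + 1 ≤ |B|` (`B` contains
`a v`). `Z ≠ 0`: otherwise `|E₀| + |I'| = r ≤ |E₀|`, `I'` is empty, contradiction. `cut_count`:
`4 (|E₀| + |I'| - r + 1) ≤ 2 (|E₀| + |I'|)`, so `|E₀| + |I'| ≤ 2 r - 2`, `|I'| ≤ r - 2 ≤ |B| - 3`.
-/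

namespace Pool.Agent.H32.BC

open Finset Pool.Agent.H29.Tor

theorem cl {V : Type} [Fintype V] [DecidableEq V] (G : SimpleGraph V) (hG : IsPlanar G)
    (htf : ∀ a b c, G.Adj a b → G.Adj b c → ¬ G.Adj a c) (I : Finset V) (hI0 : I.Nonempty)
    (hI : ∀ u ∈ I, ∀ v ∈ I, ¬ G.Adj u v) (s : V → Bool)
    (hs : ∀ x ∈ {x | x ∉ I}, ∀ y ∈ {x | x ∉ I}, G.Adj x y → s x ≠ s y) (a b : V → V)
    (hst : ∀ v ∈ I, G.Adj v (a v) ∧ G.Adj v (b v) ∧ s (a v) ≠ s (b v) ∧
      (inG G {x | x ∉ I}).Reachable (a v) (b v)) :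
    (I.image (fun v => s(a v, b v))).card + 3 + I.card ≤ Fintype.card V := by
  classical
  -- the ends are not in `I`
  have haI : ∀ v ∈ I, a v ∉ I := fun v hv h => hI v hv (a v) h (hst v hv).1
  have hbI : ∀ v ∈ I, b v ∉ I := fun v hv h => hI v hv (b v) h (hst v hv).2.1
  have hab : ∀ v ∈ I, a v ≠ b v := fun v hv h => (hst v hv).2.2.1 (by rw [h])
  -- representatives
  obtain ⟨I', hI'I, hinj', himg⟩ : ∃ I' : Finset V, I' ⊆ I ∧
      Set.InjOn (fun v => s(a v, b v)) (I' : Set V) ∧
      I'.image (fun v => s(a v, b v)) = I.image (fun v => s(a v, b v)) := by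
    have h1 : Set.SurjOn (fun v => s(a v, b v)) (I : Set V)
        ((I.image (fun v => s(a v, b v)) : Finset (Sym2 V)) : Set (Sym2 V)) := by
      rw [Finset.coe_image]
      exact Set.surjOn_image _ _
    obtain ⟨u, hus, hf, himg⟩ := Finset.exists_subset_injOn_image_eq_of_surjOn _ _ h1
    exact ⟨u, by exact_mod_cast hus, hf, himg⟩
  have hcardI' : I'.card = (I.image (fun v => s(a v, b v))).card := by
    rw [← himg, Finset.card_image_of_injOn hinj']
  have hI'pos : 0 < I'.card := by
    rw [hcardI']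
    exact (hI0.image _).card_pos
  let E₀ : Type := {e : Sym2 V // e ∈ G.edgeSet ∧ ∀ x ∈ e, x ∉ I}
  let e₀ : E₀ → Sym2 V := fun e => e.1
  let J : Type := {v // v ∈ I'}
  have hJI : ∀ j : J, j.1 ∈ I := fun j => hI'I j.2
  let ι : E₀ ⊕ (J ⊕ J) → G.edgeSet := Sum.elim (fun e => ⟨e.1, e.2.1⟩)
    (Sum.elim (fun j => ⟨s(j.1, a j.1), (hst j.1 (hJI j)).1⟩)
      (fun j => ⟨s(j.1, b j.1), (hst j.1 (hJI j)).2.1⟩))
  have hval : ∀ x y : E₀ ⊕ (J ⊕ J), ι x = ι y → (ι x).1 = (ι y).1 := fun x y h => by rw [h]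
  have hι : Function.Injective ι := by
    rintro (e | j | j) (e' | j' | j') h
    · exact congrArg _ (Subtype.ext (hval _ _ h))
    · exfalso
      have h1 : e.1 = s(j'.1, a j'.1) := hval _ _ h
      exact e.2.2 j'.1 (by rw [h1]; exact Sym2.mem_mk_left _ _) (hJI j')
    · exfalso
      have h1 : e.1 = s(j'.1, b j'.1) := hval _ _ h
      exact e.2.2 j'.1 (by rw [h1]; exact Sym2.mem_mk_left _ _) (hJI j')
    · exfalso
      have h1 : s(j.1, a j.1) = e'.1 := hval _ _ h
      exact e'.2.2 j.1 (by rw [← h1]; exact Sym2.mem_mk_left _ _) (hJI j)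
    · have h1 : s(j.1, a j.1) = s(j'.1, a j'.1) := hval _ _ h
      rcases Sym2.eq_iff.1 h1 with h2 | h2
      · have : j = j' := Subtype.ext h2.1
        rw [this]
      · exfalso
        exact haI j'.1 (hJI j') (by rw [← h2.1]; exact hJI j)
    · exfalso
      have h1 : s(j.1, a j.1) = s(j'.1, b j'.1) := hval _ _ h
      rcases Sym2.eq_iff.1 h1 with h2 | h2
      · refine hab j.1 (hJI j) ?_
        rw [h2.2, h2.1]
      · exact hbI j'.1 (hJI j') (by rw [← h2.1]; exact hJI j)
    · exfalso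
      have h1 : s(j.1, b j.1) = e'.1 := hval _ _ h
      exact e'.2.2 j.1 (by rw [← h1]; exact Sym2.mem_mk_left _ _) (hJI j)
    · exfalso
      have h1 : s(j.1, b j.1) = s(j'.1, a j'.1) := hval _ _ h
      rcases Sym2.eq_iff.1 h1 with h2 | h2
      · refine hab j.1 (hJI j) ?_
        rw [h2.2, h2.1]
      · exact haI j'.1 (hJI j') (by rw [← h2.1]; exact hJI j)
    · have h1 : s(j.1, b j.1) = s(j'.1, b j'.1) := hval _ _ h
      rcases Sym2.eq_iff.1 h1 with h2 | h2
      · have : j = j' := Subtype.ext h2.1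
        rw [this]
      · exfalso
        exact hbI j'.1 (hJI j') (by rw [← h2.1]; exact hJI j)
  have hcut0 : IsCutSpace (cyc (fun e : E₀ ⊕ (J ⊕ J) => (ι e : Sym2 V))) :=
    cut_sub (Subtype.val : G.edgeSet → Sym2 V) ι hι (planar_cut G hG)
  have hends : (fun e : E₀ ⊕ (J ⊕ J) => (ι e : Sym2 V)) =
      Sum.elim e₀ (Sum.elim (fun j : J => s(j.1, a j.1)) (fun j : J => s(j.1, b j.1))) := by
    funext e
    rcases e with e | j | j <;> rfl
  rw [hends] at hcut0
  set ends : E₀ ⊕ J → Sym2 V := Sum.elim e₀ (fun j : J => s(a j.1, b j.1)) with hendsdef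
  have hcut : IsCutSpace (cyc ends) := by
    refine cut_ser e₀ (fun j : J => j.1) (fun j : J => a j.1) (fun j : J => b j.1)
      (fun j j' h => Subtype.ext h) ?_ ?_ ?_ ?_ hcut0
    · intro j e hje
      exact e.2.2 j.1 hje (hJI j)
    · intro j j' h
      exact haI j'.1 (hJI j') (by rw [← h]; exact hJI j)
    · intro j j' h
      exact hbI j'.1 (hJI j') (by rw [← h]; exact hJI j)
    · intro j
      exact hab j.1 (hJI j)
  have hendsinj : Function.Injective ends := by
    rintro (e | j) (e' | j') h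
    · exact congrArg _ (Subtype.ext h)
    · exfalso
      have h1 : e.1 = s(a j'.1, b j'.1) := h
      have h2 : G.Adj (a j'.1) (b j'.1) := by
        have := e.2.1
        rw [h1] at this
        exact this
      exact htf (a j'.1) j'.1 (b j'.1) (hst j'.1 (hJI j')).1.symm (hst j'.1 (hJI j')).2.1 h2
    · exfalso
      have h1 : s(a j.1, b j.1) = e'.1 := h
      have h2 : G.Adj (a j.1) (b j.1) := by
        have := e'.2.1
        rw [← h1] at this
        exact this
      exact htf (a j.1) j.1 (b j.1) (hst j.1 (hJI j)).1.symm (hst j.1 (hJI j)).2.1 h2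
    · have h1 : s(a j.1, b j.1) = s(a j'.1, b j'.1) := h
      have h2 : j = j' := Subtype.ext (hinj' j.2 j'.2 h1)
      rw [h2]
  have hcol : ∀ e x y, ends e = s(x, y) → s x ≠ s y := by
    rintro (e | j) x y h
    · have h1 : e.1 = s(x, y) := h
      have h2 : G.Adj x y := by
        have := e.2.1
        rw [h1] at this
        exact this
      exact hs x (e.2.2 x (by rw [h1]; exact Sym2.mem_mk_left _ _)) y
        (e.2.2 y (by rw [h1]; exact Sym2.mem_mk_right _ _)) h2
    · have h1 : s(a j.1, b j.1) = s(x, y) := h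
      have h3 := (hst j.1 (hJI j)).2.2.1
      rcases Sym2.eq_iff.1 h1 with h2 | h2
      · rw [← h2.1, ← h2.2]; exact h3
      · rw [← h2.1, ← h2.2]; exact fun h4 => h3 h4.symm
  have hspan : Submodule.span (ZMod 2) (Set.range (fun e => bd (ends e))) =
      Submodule.span (ZMod 2) (Set.range (fun e => bd (e₀ e))) := by
    apply le_antisymm
    · rw [Submodule.span_le]
      rintro _ ⟨e | j, rfl⟩
      · exact Submodule.subset_span ⟨e, rfl⟩
      · refine reach_span G {x | x ∉ I} e₀ ?_ (a j.1) (b j.1) (hab j.1 (hJI j))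
          (hst j.1 (hJI j)).2.2.2
        intro x y hxy
        refine ⟨⟨s(x, y), hxy.2.2, ?_⟩, rfl⟩
        intro z hz
        rcases Sym2.mem_iff.1 hz with rfl | rfl
        · exact hxy.1
        · exact hxy.2.1
    · rw [Submodule.span_le]
      rintro _ ⟨e, rfl⟩
      exact Submodule.subset_span ⟨Sum.inl e, rfl⟩
  have hr := rank_cyc ends
  rw [hspan, Fintype.card_sum] at hr
  have hr0 := rank_cyc e₀
  have hJcard : Fintype.card J = I'.card := Fintype.card_coe I'
  rw [hJcard] at hr
  have hB : (univ \ I).Nonempty := by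
    obtain ⟨v, hv⟩ := hI0
    exact ⟨a v, Finset.mem_sdiff.2 ⟨Finset.mem_univ _, haI v hv⟩⟩
  have hr2 := rank_le e₀ (univ \ I) hB
    (fun e x hx => Finset.mem_sdiff.2 ⟨Finset.mem_univ _, e.2.2 x hx⟩)
    (fun e => G.not_isDiag_of_mem_edgeSet e.2.1)
  have hBc : (univ \ I).card = Fintype.card V - I.card := by
    rw [Finset.card_sdiff_of_subset (Finset.subset_univ _), Finset.card_univ]
  have hIc : I.card ≤ Fintype.card V := Finset.card_le_univ I
  rw [hBc] at hr2
  have hZ : cyc ends ≠ ⊥ := by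
    intro hZ
    have h0 : Module.finrank (ZMod 2) (cyc ends) = 0 := by
      rw [hZ]; exact finrank_bot _ _
    omega
  have h5 := cut_count (cyc ends) hcut hZ 4
    (fun z hz hz0 => even4 ends hendsinj s hcol z hz hz0)
  rw [Fintype.card_sum, hJcard] at h5
  rw [← hcardI']
  omega

end Pool.Agent.H32.BC
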