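import Pool.Agent.H29.Tor.Euler

set_option autoImplicit false

/-!
Definitions for `MP_4ee899_co` (balanced 3-colourings of planar graphs).

`eb G S T`: number of pairs `(s, t)` with `s ∈ S`, `t ∈ T`, `s` adjacent to `t`.
`P G S = 10 |S| - 3 eb G S S` is twice the Kostochka-Yancey potential `5 |S| - 3 e(S)`.
-/

namespace Pool.Agent.H32.BC

open Finset

section
variable {V : Type} (G : SimpleGraph V)

open Classical in
/-- number of adjacent pairs in `S × T` -/
noncomputable def eb (S T : Finset V) : ℕ := ((S ×ˢ T).filter (fun p => G.Adj p.1 p.2)).card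

/-- twice the potential -/
noncomputable def P (S : Finset V) : ℤ := 10 * (S.card : ℤ) - 3 * (eb G S S : ℤ)

/-- all nonempty sets have potential at least 3 -/
def Sparse : Prop := ∀ S : Finset V, S.Nonempty → 6 ≤ P G S

/-- `φ` is a proper colouring of `G` restricted to `R` -/
def ProperOn (R : Finset V) (φ : V → Fin 3) : Prop := ∀ u ∈ R, ∀ v ∈ R, G.Adj u v → φ u ≠ φ v

open Classical in
/-- the set of neighbours of `v` -/
noncomputable def nb [Fintype V] (v : V) : Finset V := univ.filter (fun w => G.Adj v w)

/-- `G` restricted to a set `B` of vertices (the other vertices are isolated) -/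
def inG (B : Set V) : SimpleGraph V where
  Adj x y := x ∈ B ∧ y ∈ B ∧ G.Adj x y
  symm := ⟨fun _ _ h => ⟨h.2.1, h.1, h.2.2.symm⟩⟩
  loopless := ⟨fun _ h => G.loopless.irrefl _ h.2.2⟩

end

/-- the induction hypothesis of the Kostochka-Yancey theorem: all sparse graphs with fewer than `n`
vertices are 3-colourable -/
def IHyp (n : ℕ) : Prop :=
  ∀ (W : Type) [Fintype W], Fintype.card W < n → ∀ H : SimpleGraph W, Sparse H → H.Colorable 3

section
variable {V E : Type}

open Classical in
/-- the boundary (the two ends) of an edge -/
noncomputable def bd (e : Sym2 V) : V → ZMod 2 := fun x => if x ∈ e then 1 else 0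

/-- the even edge sets (cycle space modulo 2) of the multigraph with edge set `E` and ends
`ends e` -/
noncomputable def cyc [Fintype E] (ends : E → Sym2 V) : Submodule (ZMod 2) (E → ZMod 2) where
  carrier := {z | ∀ x, ∑ e, z e * bd (ends e) x = 0}
  zero_mem' := by
    intro x
    simp
  add_mem' := by
    intro a b ha hb x
    simp only [Pi.add_apply, add_mul, Finset.sum_add_distrib]
    rw [ha x, hb x, add_zero]
  smul_mem' := by
    intro c a ha x
    simp only [Pi.smul_apply, smul_eq_mul, mul_assoc]
    rw [← Finset.mul_sum, ha x, mul_zero]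

/-- `Z` consists of the differences of potentials `q` along the maps `a, b : E → J` -/
def IsCutSpace (Z : Submodule (ZMod 2) (E → ZMod 2)) : Prop :=
  ∃ (J : Type) (_ : Finite J) (a b : E → J),
    ∀ z : E → ZMod 2, z ∈ Z ↔ ∃ q : J → ZMod 2, ∀ e, z e = q (a e) + q (b e)

open Classical in
/-- the support of a set of edges -/
noncomputable def supp [Fintype E] (z : E → ZMod 2) : Finset E := univ.filter (fun e => z e ≠ 0)

end

end Pool.Agent.H32.BC
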