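import Pool.Agent.H32.BC.Defs

set_option autoImplicit false

/-!
Descent. Let `Good` be a property of natural numbers with `Good k` for all `k ≤ n/2`. Suppose that,
whenever `I` is an independent set whose complement is properly 2-coloured by `s` and `|I|` is not
good, some `v ∈ I` can be moved (the complement of `I \ {v}` has a proper 2-colouring). Then there is a
proper 3-colouring all of whose classes have good sizes.

Proof. If all classes of the given 3-colouring are good we are done. Otherwise a class `I` is not
good, so `2 |I| > n`, and the other two classes give `s`. Strong induction on `|I|`, for independent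
`I` with properly 2-colourable complement and `|I|` not good (so `2 |I| > n`): get `v` and `s'`. If
`|I \ {v}|` is not good, continue. If it is good: `B' = (complement of I) ∪ {v}` has
`n - |I| + 1` vertices, `2 (|B'| - 1) < n`. The classes of `s'` on `B'`: if both are nonempty each has at
most `|B'| - 1` elements, `2 (|B'| - 1) ≤ n`, good. If one is empty, `G` has no edge inside `B'`; if `|B'| ≥ 2`
recolour one vertex of `B'` (both classes nonempty); if `|B'| = 1` the class has 1 element, `2 * 1 ≤ n`.
Colour `I \ {v}` by 0 and `B'` by 1 and 2.
-/

namespace Pool.Agent.H32.BC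

open Finset

private theorem desc_final {V : Type} [Fintype V] [DecidableEq V] (G : SimpleGraph V)
    (hn : 2 ≤ Fintype.card V) (Good : ℕ → Prop)
    (hGood : ∀ k, 2 * k ≤ Fintype.card V → Good k) (A : Finset V)
    (hA : ∀ u ∈ A, ∀ v ∈ A, ¬ G.Adj u v) (hAg : Good A.card) (s : V → Bool)
    (hs : ∀ x ∉ A, ∀ y ∉ A, G.Adj x y → s x ≠ s y)
    (hB : 2 * ((univ \ A).card - 1) ≤ Fintype.card V) :
    ∃ c : V → Fin 3, (∀ u v, G.Adj u v → c u ≠ c v) ∧
      ∀ i, Good (univ.filter (fun v => c v = i)).card := by
  -- a colouring of the complement with two classes of good sizes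
  obtain ⟨s', hs', h0, h1⟩ : ∃ s' : V → Bool, (∀ x ∉ A, ∀ y ∉ A, G.Adj x y → s' x ≠ s' y) ∧
      2 * ((univ \ A).filter (fun v => s' v = false)).card ≤ Fintype.card V ∧
      2 * ((univ \ A).filter (fun v => s' v = true)).card ≤ Fintype.card V := by
    have hsum : ∀ t : V → Bool, ((univ \ A).filter (fun v => t v = false)).card +
        ((univ \ A).filter (fun v => t v = true)).card = (univ \ A).card := by
      intro t
      rw [← Finset.card_filter_add_card_filter_not (s := univ \ A) (fun v => t v = false)]
      congr 2
      ext v
      simp
    by_cases hB1 : (univ \ A).card ≤ 1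
    · refine ⟨s, hs, ?_, ?_⟩
      · have := hsum s
        omega
      · have := hsum s
        omega
    · by_cases hf : ((univ \ A).filter (fun v => s v = false)).card = 0 ∨
          ((univ \ A).filter (fun v => s v = true)).card = 0
      · -- no edge inside the complement
        have hno : ∀ x ∉ A, ∀ y ∉ A, ¬ G.Adj x y := by
          intro x hx y hy hxy
          have h2 := hs x hx y hy hxy
          rcases hf with hf | hf
          · rw [Finset.card_eq_zero, Finset.filter_eq_empty_iff] at hf
            have h3 := hf (x := x) (by simp [hx])
            have h4 := hf (x := y) (by simp [hy])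
            rw [Bool.not_eq_false] at h3 h4
            exact h2 (h3.trans h4.symm)
          · rw [Finset.card_eq_zero, Finset.filter_eq_empty_iff] at hf
            have h3 := hf (x := x) (by simp [hx])
            have h4 := hf (x := y) (by simp [hy])
            rw [Bool.not_eq_true] at h3 h4
            exact h2 (h3.trans h4.symm)
        obtain ⟨x0, hx0⟩ : (univ \ A).Nonempty := by
          rw [← Finset.card_pos]
          omega
        refine ⟨fun v => decide (v = x0), fun x hx y hy hxy => absurd hxy (hno x hx y hy), ?_, ?_⟩
        · have h3 : ((univ \ A).filter (fun v => decide (v = x0) = false)).card ≤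
              (univ \ A).card - 1 := by
            rw [← Finset.card_erase_of_mem hx0]
            refine Finset.card_le_card fun v hv => ?_
            rw [Finset.mem_filter, decide_eq_false_iff_not] at hv
            exact Finset.mem_erase.2 ⟨hv.2, hv.1⟩
          simp only
          omega
        · have h3 : ((univ \ A).filter (fun v => decide (v = x0) = true)).card ≤ 1 := by
            rw [Finset.card_le_one]
            intro a ha b hb
            rw [Finset.mem_filter, decide_eq_true_eq] at ha hb
            rw [ha.2, hb.2]
          simp only
          omega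
      · rw [not_or] at hf
        refine ⟨s, hs, ?_, ?_⟩
        · have := hsum s
          omega
        · have := hsum s
          omega
  refine ⟨fun v => if v ∈ A then 0 else if s' v = false then 1 else 2, ?_, ?_⟩
  · intro u v huv
    by_cases hu : u ∈ A
    · by_cases hv : v ∈ A
      · exact absurd huv (hA u hu v hv)
      · simp only [if_pos hu, if_neg hv]
        split_ifs <;> simp
    · by_cases hv : v ∈ A
      · simp only [if_pos hv, if_neg hu]
        split_ifs <;> simp
      · simp only [if_neg hu, if_neg hv]
        have h2 := hs' u hu v hv huv
        cases h3 : s' u <;> cases h4 : s' v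
        · rw [h3, h4] at h2
          exact absurd rfl h2
        · simp
        · simp
        · rw [h3, h4] at h2
          exact absurd rfl h2
  · intro i
    fin_cases i
    · have h2 : (univ.filter (fun v => (if v ∈ A then (0 : Fin 3) else
          if s' v = false then 1 else 2) = 0)) = A := by
        ext v
        rw [Finset.mem_filter]
        by_cases hv : v ∈ A
        · simp [hv]
        · simp only [if_neg hv]
          split_ifs <;> simp [hv]
      change Good (univ.filter (fun v => (if v ∈ A then (0 : Fin 3) else
          if s' v = false then 1 else 2) = 0)).card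
      rw [h2]
      exact hAg
    · have h2 : (univ.filter (fun v => (if v ∈ A then (0 : Fin 3) else
          if s' v = false then 1 else 2) = 1)) = (univ \ A).filter (fun v => s' v = false) := by
        ext v
        rw [Finset.mem_filter, Finset.mem_filter, Finset.mem_sdiff]
        by_cases hv : v ∈ A
        · simp [hv]
        · simp only [if_neg hv]
          cases h3 : s' v <;> simp [hv]
      change Good (univ.filter (fun v => (if v ∈ A then (0 : Fin 3) else
          if s' v = false then 1 else 2) = 1)).card
      rw [h2]
      exact hGood _ h0
    · have h2 : (univ.filter (fun v => (if v ∈ A then (0 : Fin 3) else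
          if s' v = false then 1 else 2) = 2)) = (univ \ A).filter (fun v => s' v = true) := by
        ext v
        rw [Finset.mem_filter, Finset.mem_filter, Finset.mem_sdiff]
        by_cases hv : v ∈ A
        · simp [hv]
        · simp only [if_neg hv]
          cases h3 : s' v <;> simp [hv]
      change Good (univ.filter (fun v => (if v ∈ A then (0 : Fin 3) else
          if s' v = false then 1 else 2) = 2)).card
      rw [h2]
      exact hGood _ h1

theorem descent {V : Type} [Fintype V] [DecidableEq V] (G : SimpleGraph V)
    (hn : 2 ≤ Fintype.card V) (hc : G.Colorable 3) (Good : ℕ → Prop)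
    (hGood : ∀ k, 2 * k ≤ Fintype.card V → Good k)
    (hmov : ∀ (I : Finset V) (s : V → Bool), (∀ u ∈ I, ∀ v ∈ I, ¬ G.Adj u v) →
      (∀ x ∉ I, ∀ y ∉ I, G.Adj x y → s x ≠ s y) → ¬ Good I.card →
      ∃ v ∈ I, ∃ s' : V → Bool, ∀ x ∉ I.erase v, ∀ y ∉ I.erase v, G.Adj x y → s' x ≠ s' y) :
    ∃ c : V → Fin 3, (∀ u v, G.Adj u v → c u ≠ c v) ∧
      ∀ i, Good (univ.filter (fun v => c v = i)).card := by
  have key : ∀ m : ℕ, ∀ (I : Finset V) (s : V → Bool), I.card = m →
      (∀ u ∈ I, ∀ v ∈ I, ¬ G.Adj u v) → (∀ x ∉ I, ∀ y ∉ I, G.Adj x y → s x ≠ s y) →
      ¬ Good I.card → ∃ c : V → Fin 3, (∀ u v, G.Adj u v → c u ≠ c v) ∧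
        ∀ i, Good (univ.filter (fun v => c v = i)).card := by
    intro m
    induction m with
    | zero =>
      intro I s hI _ _ hbad
      exfalso
      apply hbad
      rw [hI]
      exact hGood 0 (by omega)
    | succ m ih =>
      intro I s hI hind hs hbad
      obtain ⟨v, hv, s', hs'⟩ := hmov I s hind hs hbad
      have hcard : (I.erase v).card = m := by
        rw [Finset.card_erase_of_mem hv, hI]
        rfl
      have hind' : ∀ u ∈ I.erase v, ∀ w ∈ I.erase v, ¬ G.Adj u w := fun u hu w hw =>
        hind u (Finset.mem_of_mem_erase hu) w (Finset.mem_of_mem_erase hw)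
      by_cases hg : Good (I.erase v).card
      · refine desc_final G hn Good hGood (I.erase v) hind' hg s' hs' ?_
        have h1 : ¬ 2 * I.card ≤ Fintype.card V := fun h => hbad (hGood _ h)
        have h2 : (univ \ I.erase v).card = Fintype.card V - m := by
          rw [Finset.card_sdiff_of_subset (Finset.subset_univ _), hcard, Finset.card_univ]
        rw [h2]
        omega
      · exact ih (I.erase v) s' hcard hind' hs' hg
  obtain ⟨c⟩ := hc
  by_cases hall : ∀ i, Good (univ.filter (fun v => c v = i)).card
  · exact ⟨fun v => c v, fun u v huv => c.valid huv, hall⟩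
  · rw [not_forall] at hall
    obtain ⟨i, hi⟩ := hall
    obtain ⟨j, k, hj, hk, hjk⟩ : ∃ j k : Fin 3, j ≠ i ∧ k ≠ i ∧
        ∀ x : Fin 3, x ≠ i → x = j ∨ x = k := by
      clear hi
      revert i
      decide
    refine key _ (univ.filter (fun v => c v = i)) (fun v => decide (c v = j)) rfl ?_ ?_ hi
    · intro u hu v hv huv
      rw [Finset.mem_filter] at hu hv
      exact c.valid huv (hu.2.trans hv.2.symm)
    · intro x hx y hy hxy
      rw [Finset.mem_filter, not_and] at hx hy
      have hx := hjk _ (hx (Finset.mem_univ x))
      have hy := hjk _ (hy (Finset.mem_univ y))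
      have hne : c x ≠ c y := c.valid hxy
      intro h
      rw [decide_eq_decide] at h
      rcases hx with hx | hx
      · exact hne (hx.trans (h.1 hx).symm)
      · rcases hy with hy | hy
        · exact hne ((h.2 hy).trans hy.symm)
        · exact hne (hx.trans hy.symm)

end Pool.Agent.H32.BC
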