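import Pool.Agent.H32.BC.Even4

set_option autoImplicit false

/-!
A nonempty even edge set in a graph without 3-cycles and 4-cycles has at least 5 edges.

Proof. As in `even4` with `exists_other`: edges `s(a,b)`, `s(b,c)` (`c ≠ a`), `s(c,d)` (`d ≠ b`, and
`d ≠ a`: no triangle), `s(d,e)` (`e ≠ c`; `e ≠ b`: no triangle; `e ≠ a`: no 4-cycle), and at `a` another
edge `s(a,f)`, `f ≠ b`. They are different: `a, b, c, d` are different, `e ∉ {a,b,c,d}`, and
`s(a,f)` contains `a`, which is in none of `s(b,c), s(c,d), s(d,e)`.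
-/

namespace Pool.Agent.H32.BC

open Finset

theorem even5 {V E : Type} [Fintype E] (G : SimpleGraph V) (ends : E → Sym2 V)
    (hinj : Function.Injective ends) (hG : ∀ e, ends e ∈ G.edgeSet)
    (htf : ∀ a b c, G.Adj a b → G.Adj b c → ¬ G.Adj a c)
    (hC4 : ∀ a b c d, a ≠ c → b ≠ d → ¬ (G.Adj a b ∧ G.Adj b c ∧ G.Adj c d ∧ G.Adj d a))
    (z : E → ZMod 2) (hz : z ∈ cyc ends) (hz0 : z ≠ 0) : 5 ≤ (supp z).card := by
  classical
  obtain ⟨e1, hz1⟩ := Function.ne_iff.1 hz0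
  rw [Pi.zero_apply] at hz1
  obtain ⟨a, b, h1⟩ : ∃ a b, ends e1 = s(a, b) := by
    induction h : ends e1 using Sym2.ind with
    | _ a b => exact ⟨a, b, rfl⟩
  have key : ∀ (e : E), z e ≠ 0 → ∀ x y, ends e = s(x, y) →
      ∃ e' w, e' ≠ e ∧ z e' ≠ 0 ∧ ends e' = s(y, w) ∧ w ≠ x ∧ G.Adj y w := by
    intro e he x y hxy
    obtain ⟨e', hne, hz', hmem⟩ := exists_other ends z hz e he y (by rw [hxy]; simp)
    obtain ⟨w, hw⟩ := Sym2.mem_iff_exists.1 hmem
    refine ⟨e', w, hne, hz', hw, ?_, ?_⟩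
    · rintro rfl
      apply hne
      apply hinj
      rw [hw, hxy, Sym2.eq_swap]
    · have := hG e'
      rw [hw, SimpleGraph.mem_edgeSet] at this
      exact this
  have adj1 : G.Adj a b := by
    have := hG e1
    rwa [h1, SimpleGraph.mem_edgeSet] at this
  obtain ⟨e2, c, h12, hz2, h2, hca, adj2⟩ := key e1 hz1 a b h1
  obtain ⟨e3, d, h23, hz3, h3, hdb, adj3⟩ := key e2 hz2 b c h2
  obtain ⟨e4, g, h34, hz4, h4, hgc, adj4⟩ := key e3 hz3 c d h3
  obtain ⟨e5, f, h15, hz5, h5, hfb, adj5⟩ := key e1 hz1 b a (by rw [h1, Sym2.eq_swap])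
  have hda : d ≠ a := by
    rintro rfl
    exact htf _ _ _ adj1 adj2 adj3.symm
  have hgb : g ≠ b := by
    rintro rfl
    exact htf _ _ _ adj2 adj3 adj4.symm
  have hga : g ≠ a := by
    rintro rfl
    exact hC4 g b c d hca.symm hdb.symm ⟨adj1, adj2, adj3, adj4⟩
  have hab : a ≠ b := adj1.ne
  have hbc : b ≠ c := adj2.ne
  have hcd : c ≠ d := adj3.ne
  have ma1 : a ∈ ends e1 := by rw [h1]; simp
  have ma5 : a ∈ ends e5 := by rw [h5]; simp
  have mb2 : b ∈ ends e2 := by rw [h2]; simp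
  have na2 : a ∉ ends e2 := by
    rw [h2, Sym2.mem_iff]
    rintro (h | h)
    · exact hab h
    · exact hca h.symm
  have na3 : a ∉ ends e3 := by
    rw [h3, Sym2.mem_iff]
    rintro (h | h)
    · exact hca h.symm
    · exact hda h.symm
  have na4 : a ∉ ends e4 := by
    rw [h4, Sym2.mem_iff]
    rintro (h | h)
    · exact hda h.symm
    · exact hga h.symm
  have nb4 : b ∉ ends e4 := by
    rw [h4, Sym2.mem_iff]
    rintro (h | h)
    · exact hdb h.symm
    · exact hgb h.symm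
  have d13 : e1 ≠ e3 := fun h => na3 (h ▸ ma1)
  have d14 : e1 ≠ e4 := fun h => na4 (h ▸ ma1)
  have d24 : e2 ≠ e4 := fun h => nb4 (h ▸ mb2)
  have d25 : e2 ≠ e5 := fun h => na2 (h ▸ ma5)
  have d35 : e3 ≠ e5 := fun h => na3 (h ▸ ma5)
  have d45 : e4 ≠ e5 := fun h => na4 (h ▸ ma5)
  have hcard : ({e1, e2, e3, e4, e5} : Finset E).card = 5 := by
    rw [card_insert_of_notMem, card_insert_of_notMem, card_insert_of_notMem,
      card_insert_of_notMem, card_singleton]
    · simp [d45]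
    · simp [h34.symm, d35]
    · simp [h23.symm, d24, d25]
    · simp [h12.symm, d13, d14, h15.symm]
  rw [← hcard]
  apply card_le_card
  intro e he
  simp only [mem_insert, mem_singleton] at he
  unfold supp
  rw [mem_filter]
  refine ⟨mem_univ _, ?_⟩
  rcases he with rfl | rfl | rfl | rfl | rfl
  · exact hz1
  · exact hz2
  · exact hz3
  · exact hz4
  · exact hz5

end Pool.Agent.H32.BC
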