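import Pool.Agent.H32.BC.Ext
import Pool.Agent.H32.BD.GF3

set_option autoImplicit false

/-!
Both extensions (bounded number of common neighbours, number of 4-cycles) in one statement; the
3-colouring to start with comes from Groetzsch's theorem.
-/

namespace Pool.Agent.H32.BC

open Finset Pool.Agent.H29.Tor

theorem pairs_mu {V : Type} [Fintype V] [DecidableEq V] (G : SimpleGraph V) (μ : ℕ)
    (hμ : ∀ x y, x ≠ y → Nat.card {v // G.Adj x v ∧ G.Adj y v} ≤ μ) (I : Finset V) (a b : V → V)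
    (hab : ∀ v ∈ I, a v ≠ b v ∧ G.Adj v (a v) ∧ G.Adj v (b v)) :
    I.card ≤ μ * (I.image (fun v => s(a v, b v))).card := by
  classical
  set f : V → Sym2 V := fun v => s(a v, b v) with hf
  have h1 : I.card ≤ μ * (I.image f).card := by
    refine Finset.card_le_mul_card_image I μ ?_
    intro p hp
    rw [Finset.mem_image] at hp
    obtain ⟨w, hw, rfl⟩ := hp
    obtain ⟨w1, w2, w3⟩ := hab w hw
    refine le_trans ?_ (hμ (a w) (b w) w1)
    rw [Nat.card_eq_fintype_card, Fintype.card_subtype]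
    refine Finset.card_le_card ?_
    intro x hx
    rw [Finset.mem_filter] at hx
    obtain ⟨hxI, hx2⟩ := hx
    obtain ⟨_, x2, x3⟩ := hab x hxI
    rw [Finset.mem_filter]
    refine ⟨Finset.mem_univ x, ?_⟩
    simp only [hf, Sym2.eq_iff] at hx2
    rcases hx2 with ⟨e1, e2⟩ | ⟨e1, e2⟩
    · rw [← e1, ← e2]
      exact ⟨x2.symm, x3.symm⟩
    · rw [← e1, ← e2]
      exact ⟨x3.symm, x2.symm⟩
  exact h1

theorem pairs_c4 {V : Type} [Fintype V] [DecidableEq V] (G : SimpleGraph V) (I : Finset V)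
    (a b : V → V) (hI : ∀ u ∈ I, ∀ v ∈ I, ¬ G.Adj u v)
    (hab : ∀ v ∈ I, a v ≠ b v ∧ G.Adj v (a v) ∧ G.Adj v (b v)) :
    8 * I.card ≤ 8 * (I.image (fun v => s(a v, b v))).card + N4 G := by
  classical
  rcases isEmpty_or_nonempty V with hV | hV
  · have h0 : I.card = 0 := by
      rw [Finset.card_eq_zero, Finset.eq_empty_iff_forall_notMem]
      exact fun v => (hV.false v).elim
    omega
  set f : V → Sym2 V := fun v => s(a v, b v) with hf
  have hr : ∀ v : V, ∃ w : V, v ∈ I → (w ∈ I ∧ f w = f v) := fun v => ⟨v, fun h => ⟨h, rfl⟩⟩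
  have hrep : ∀ p : Sym2 V, ∃ w : V, p ∈ I.image f → (w ∈ I ∧ f w = p) := by
    intro p
    by_cases hp : p ∈ I.image f
    · obtain ⟨w, hw, hwp⟩ := Finset.mem_image.1 hp
      exact ⟨w, fun _ => ⟨hw, hwp⟩⟩
    · exact ⟨hV.some, fun h => absurd h hp⟩
  choose r hr2 using hrep
  have hrI : ∀ v ∈ I, r (f v) ∈ I ∧ f (r (f v)) = f v := fun v hv =>
    hr2 (f v) (Finset.mem_image_of_mem f hv)
  set J := I.filter (fun v => r (f v) ≠ v) with hJ
  set K := I.filter (fun v => r (f v) = v) with hK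
  have hJK : K.card + J.card = I.card := Finset.card_filter_add_card_filter_not _
  have hKim : K.card ≤ (I.image f).card := by
    refine Finset.card_le_card_of_injOn f ?_ ?_
    · intro v hv
      exact Finset.mem_image_of_mem f (Finset.mem_filter.1 hv).1
    · intro v hv w hw h
      have h1 := (Finset.mem_filter.1 hv).2
      have h2 := (Finset.mem_filter.1 hw).2
      rw [← h1, ← h2, h]
  -- the quadruples
  set w : V → V := fun v => r (f v) with hw
  set X : V → Bool → V := fun v i => if i then v else w v with hX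
  set Y : V → Bool → V := fun v j => if j then a v else b v with hY
  have fJ : ∀ v ∈ J, v ∈ I ∧ w v ∈ I ∧ w v ≠ v ∧ w (w v) = w v ∧ a v ∉ I ∧ b v ∉ I ∧
      a v ≠ b v ∧ G.Adj v (a v) ∧ G.Adj v (b v) ∧ G.Adj (w v) (a v) ∧ G.Adj (w v) (b v) := by
    intro v hv
    obtain ⟨h1, h2⟩ := Finset.mem_filter.1 hv
    obtain ⟨h3, h4⟩ := hrI v h1
    obtain ⟨e1, e2, e3⟩ := hab v h1
    obtain ⟨_, e5, e6⟩ := hab (w v) h3
    refine ⟨h1, h3, h2, ?_, fun h => hI v h1 _ h e2, fun h => hI v h1 _ h e3, e1, e2, e3, ?_⟩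
    · simp only [hw]
      rw [h4]
    · have h5 : s(a (w v), b (w v)) = s(a v, b v) := h4
      rw [Sym2.eq_iff] at h5
      rcases h5 with ⟨g1, g2⟩ | ⟨g1, g2⟩
      · rw [← g1, ← g2]
        exact ⟨e5, e6⟩
      · rw [← g1, ← g2]
        exact ⟨e6, e5⟩
  have hXI : ∀ v ∈ J, ∀ i, X v i ∈ I := by
    intro v hv i
    obtain ⟨h1, h2, _⟩ := fJ v hv
    cases i
    · exact h2
    · exact h1
  have hYI : ∀ v ∈ J, ∀ j, Y v j ∉ I := by
    intro v hv j
    obtain ⟨_, _, _, _, h1, h2, _⟩ := fJ v hv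
    cases j
    · exact h2
    · exact h1
  have hXY : ∀ v ∈ J, ∀ i j, G.Adj (X v i) (Y v j) := by
    intro v hv i j
    obtain ⟨_, _, _, _, _, _, _, h1, h2, h3, h4⟩ := fJ v hv
    cases i <;> cases j
    · exact h4
    · exact h3
    · exact h2
    · exact h1
  have hXX : ∀ v ∈ J, ∀ i, X v i ≠ X v (!i) := by
    intro v hv i
    obtain ⟨_, _, h1, _⟩ := fJ v hv
    cases i
    · exact h1
    · exact h1.symm
  have hYY : ∀ v ∈ J, ∀ j, Y v j ≠ Y v (!j) := by
    intro v hv j
    obtain ⟨_, _, _, _, _, _, h1, _⟩ := fJ v hv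
    cases j
    · exact h1.symm
    · exact h1
  set Q : Finset (V × V × V × V) := univ.filter (fun p => p.1 ≠ p.2.2.1 ∧ p.2.1 ≠ p.2.2.2 ∧
    G.Adj p.1 p.2.1 ∧ G.Adj p.2.1 p.2.2.1 ∧ G.Adj p.2.2.1 p.2.2.2 ∧ G.Adj p.2.2.2 p.1) with hQ
  have hN4 : N4 G = Q.card := by
    unfold N4
    rw [Nat.card_eq_fintype_card, Fintype.card_subtype]
  set φ : V × Bool × Bool × Bool → V × V × V × V := fun q =>
    if q.2.2.2 then (X q.1 q.2.1, Y q.1 q.2.2.1, X q.1 (!q.2.1), Y q.1 (!q.2.2.1))
    else (Y q.1 q.2.2.1, X q.1 q.2.1, Y q.1 (!q.2.2.1), X q.1 (!q.2.1)) with hφ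
  have hmap : ∀ q ∈ J ×ˢ (univ : Finset (Bool × Bool × Bool)), φ q ∈ Q := by
    rintro ⟨v, i, j, k⟩ hq
    have hv : v ∈ J := (Finset.mem_product.1 hq).1
    rw [hQ, Finset.mem_filter]
    refine ⟨Finset.mem_univ _, ?_⟩
    cases k
    · exact ⟨hYY v hv j, hXX v hv i, (hXY v hv i j).symm, hXY v hv i (!j),
        (hXY v hv (!i) (!j)).symm, hXY v hv (!i) j⟩
    · exact ⟨hXX v hv i, hYY v hv j, hXY v hv i j, (hXY v hv (!i) j).symm,
        hXY v hv (!i) (!j), (hXY v hv i (!j)).symm⟩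
  have hcore : ∀ v ∈ J, ∀ v' ∈ J, ∀ i i' j j', X v i = X v' i' → X v (!i) = X v' (!i') →
      Y v j = Y v' j' → v = v' ∧ i = i' ∧ j = j' := by
    intro v hv v' hv' i i' j j' e1 e2 e3
    obtain ⟨_, _, h1, h2, _, _, h3, _⟩ := fJ v hv
    obtain ⟨_, _, h1', h2', _⟩ := fJ v' hv'
    have hvv : v = v' := by
      cases i <;> cases i'
      · exact e2
      · exfalso
        have g1 : v = w v' := e2
        apply h1
        rw [g1]
        exact h2'
      · exfalso
        have g1 : v = w v' := e1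
        apply h1
        rw [g1]
        exact h2'
      · exact e1
    subst hvv
    refine ⟨rfl, ?_, ?_⟩
    · cases i <;> cases i'
      · rfl
      · exact absurd e1 h1
      · exact absurd e1.symm h1
      · rfl
    · cases j <;> cases j'
      · rfl
      · exact absurd e3.symm h3
      · exact absurd e3 h3
      · rfl
  have hinj : Set.InjOn φ (J ×ˢ (univ : Finset (Bool × Bool × Bool)) : Finset _) := by
    rintro ⟨v, i, j, k⟩ hq ⟨v', i', j', k'⟩ hq' h
    have hv : v ∈ J := (Finset.mem_product.1 hq).1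
    have hv' : v' ∈ J := (Finset.mem_product.1 hq').1
    cases k <;> cases k'
    · simp only [hφ, Bool.false_eq_true, if_false, Prod.mk.injEq] at h
      obtain ⟨e1, e2, e3, e4⟩ := h
      obtain ⟨g1, g2, g3⟩ := hcore v hv v' hv' i i' j j' e2 e4 e1
      rw [g1, g2, g3]
    · simp only [hφ, Bool.false_eq_true, if_false, if_true, Prod.mk.injEq] at h
      exact absurd (h.1 ▸ hXI v' hv' i') (hYI v hv j)
    · simp only [hφ, Bool.false_eq_true, if_false, if_true, Prod.mk.injEq] at h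
      exact absurd (h.1 ▸ hXI v hv i) (hYI v' hv' j')
    · simp only [hφ, if_true, Prod.mk.injEq] at h
      obtain ⟨e1, e2, e3, e4⟩ := h
      obtain ⟨g1, g2, g3⟩ := hcore v hv v' hv' i i' j j' e1 e3 e2
      rw [g1, g2, g3]
  have h8 := Finset.card_le_card_of_injOn φ hmap hinj
  rw [Finset.card_product] at h8
  have h9 : (univ : Finset (Bool × Bool × Bool)).card = 8 := rfl
  rw [h9, ← hN4] at h8
  have h11 : (I.image f).card = (I.image (fun v => s(a v, b v))).card := rfl
  omega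

/-- Triangle-free planar graphs: the classes have at most `n / 2` vertices, or at most
`(n - 3 + q) / 2` vertices (`q` the number of 4-cycles) and at most `μ (n - 3) / (μ + 1)` vertices
(`μ` a bound for the number of common neighbours of two vertices). -/
theorem main4 (V : Type) [Fintype V] (G : SimpleGraph V) (hG : IsPlanar G)
    (h3 : G.CliqueFree 3) (hn : 2 ≤ Fintype.card V) :
    ∃ c : G.Coloring (Fin 3), ∀ i, 2 * Nat.card {v // c v = i} ≤ Fintype.card V ∨
      (16 * Nat.card {v // c v = i} + 24 ≤ 8 * Fintype.card V + N4 G ∧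
        ∀ μ : ℕ, (∀ x y, x ≠ y → Nat.card {v // G.Adj x v ∧ G.Adj y v} ≤ μ) →
          (μ + 1) * Nat.card {v // c v = i} + 3 * μ ≤ μ * Fintype.card V) := by
  classical
  have htf : ∀ a b c, G.Adj a b → G.Adj b c → ¬ G.Adj a c := by
    intro a b c hab hbc hac
    exact h3 {a, b, c} (SimpleGraph.is3Clique_triple_iff.2 ⟨hab, hac, hbc⟩)
  obtain ⟨c, hc, hcard⟩ := gen G hG htf hn (Pool.Agent.H32.BD.groetzsch G hG h3)
    (fun k => 2 * k ≤ Fintype.card V ∨ (16 * k + 24 ≤ 8 * Fintype.card V + N4 G ∧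
      ∀ μ : ℕ, (∀ x y, x ≠ y → Nat.card {v // G.Adj x v ∧ G.Adj y v} ≤ μ) →
        (μ + 1) * k + 3 * μ ≤ μ * Fintype.card V)) (fun k hk => Or.inl hk) (by
      intro I a b hI hab hgood
      by_contra hcon
      refine hgood (Or.inr ⟨?_, ?_⟩)
      · have := pairs_c4 G I a b hI hab
        omega
      · intro μ hμ
        have h1 := pairs_mu G μ hμ I a b hab
        have h2 : μ * ((I.image (fun v => s(a v, b v))).card + 3 + I.card) ≤
            μ * Fintype.card V := Nat.mul_le_mul_left μ (by omega)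
        nlinarith)
  refine ⟨SimpleGraph.Coloring.mk c (fun {u v} h => hc u v h), fun i => ?_⟩
  have e : Nat.card {v // c v = i} = (univ.filter (fun v => c v = i)).card := by
    rw [Nat.card_eq_fintype_card, Fintype.card_subtype]
  have h := hcard i
  rw [← e] at h
  exact h

end Pool.Agent.H32.BC
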