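import Pool.Agent.H32.BC.CutCount
import Pool.Agent.H32.BC.CutPlanar
import Pool.Agent.H32.BC.CutSub
import Pool.Agent.H32.BC.Even5
import Pool.Agent.H32.BC.Rank

set_option autoImplicit false

/-!
A planar graph without 3-cycles and 4-cycles is sparse: `3 * (2 e(S)) + 6 ≤ 10 |S|` for nonempty `S`.

Proof. `E` = the edges of `G` inside `S` (a subtype of `Sym2 V`), `ends` the inclusion;
`eb G S S = 2 |E|`. `planar_cut` and `cut_sub` give that `Z = cyc ends` is a cut space, `rank_cyc` and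
`rank_le` that `dim Z + |S| ≥ |E| + 1`. If `Z = 0`: `|E| + 1 ≤ |S|`, `6 |E| + 6 ≤ 6 |S| ≤ 10 |S|`. If
`Z ≠ 0`: `even5` and `cut_count`: `5 (dim Z + 1) ≤ 2 |E|`, so `5 (|E| + 2 - |S|) ≤ 2 |E|`,
`3 |E| + 10 ≤ 5 |S|`.
-/

namespace Pool.Agent.H32.BC

open Finset Pool.Agent.H29.Tor

open Classical in
/-- pairs of adjacent vertices and edges -/
theorem G5Sparse_eb {V : Type} [Fintype V] (G : SimpleGraph V) (S : Finset V) :
    eb G S S ≤ 2 * ((univ : Finset (Sym2 V)).filter
      (fun e => e ∈ G.edgeSet ∧ ∀ x ∈ e, x ∈ S)).card := by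
  unfold eb
  set A := (S ×ˢ S).filter (fun p => G.Adj p.1 p.2) with hA
  have h1 : A.card ≤ 2 * (A.image (fun p : V × V => s(p.1, p.2))).card := by
    refine Finset.card_le_mul_card_image A 2 ?_
    intro e he
    obtain ⟨⟨x, y⟩, hxy, rfl⟩ := Finset.mem_image.1 he
    have h2 : A.filter (fun p : V × V => s(p.1, p.2) = s(x, y)) ⊆ {(x, y), (y, x)} := by
      intro p hp
      have h3 := (Finset.mem_filter.1 hp).2
      rw [Finset.mem_insert, Finset.mem_singleton]
      rcases Sym2.eq_iff.1 h3 with h | h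
      · left; exact Prod.ext h.1 h.2
      · right; exact Prod.ext h.1 h.2
    exact (Finset.card_le_card h2).trans Finset.card_le_two
  refine h1.trans (Nat.mul_le_mul_left 2 (Finset.card_le_card ?_))
  intro e he
  obtain ⟨⟨x, y⟩, hxy, rfl⟩ := Finset.mem_image.1 he
  rw [hA, Finset.mem_filter, Finset.mem_product] at hxy
  rw [Finset.mem_filter]
  refine ⟨Finset.mem_univ _, ?_, ?_⟩
  · exact (SimpleGraph.mem_edgeSet G).2 hxy.2
  · intro z hz
    rcases Sym2.mem_iff.1 hz with rfl | rfl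
    · exact hxy.1.1
    · exact hxy.1.2

theorem g5_sparse {V : Type} [Fintype V] [DecidableEq V] (G : SimpleGraph V) (hG : IsPlanar G)
    (htf : ∀ a b c, G.Adj a b → G.Adj b c → ¬ G.Adj a c)
    (hC4 : ∀ a b c d, a ≠ c → b ≠ d → ¬ (G.Adj a b ∧ G.Adj b c ∧ G.Adj c d ∧ G.Adj d a)) :
    Sparse G := by
  classical
  intro S hS
  let E : Type := {e : Sym2 V // e ∈ G.edgeSet ∧ ∀ x ∈ e, x ∈ S}
  let ends : E → Sym2 V := fun e => e.1
  let ι : E → G.edgeSet := fun e => ⟨e.1, e.2.1⟩
  have hι : Function.Injective ι := by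
    intro e e' h
    exact Subtype.ext (congrArg (fun x : G.edgeSet => (x : Sym2 V)) h)
  have hinj : Function.Injective ends := fun e e' h => Subtype.ext h
  have hcut : IsCutSpace (cyc ends) :=
    cut_sub (Subtype.val : G.edgeSet → Sym2 V) ι hι (planar_cut G hG)
  have hr := rank_cyc ends
  have hr2 := rank_le ends S hS (fun e x hx => e.2.2 x hx)
    (fun e => G.not_isDiag_of_mem_edgeSet e.2.1)
  have hcard : Fintype.card E = ((univ : Finset (Sym2 V)).filter
      (fun e => e ∈ G.edgeSet ∧ ∀ x ∈ e, x ∈ S)).card := by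
    rw [Fintype.card_subtype]
  have heb : eb G S S ≤ 2 * Fintype.card E := by
    rw [hcard]
    convert G5Sparse_eb G S
  unfold P
  have hSc : 1 ≤ S.card := hS.card_pos
  by_cases hZ : cyc ends = ⊥
  · have h0 : Module.finrank (ZMod 2) (cyc ends) = 0 := by
      rw [hZ]; exact finrank_bot _ _
    rw [h0] at hr
    have : (eb G S S : ℤ) ≤ 2 * (Fintype.card E : ℤ) := by exact_mod_cast heb
    have h3 : (Fintype.card E : ℤ) + 1 ≤ S.card := by
      have : Fintype.card E + 1 ≤ S.card := by omega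
      exact_mod_cast this
    have h4 : (1 : ℤ) ≤ S.card := by exact_mod_cast hSc
    linarith
  · have h5 := cut_count (cyc ends) hcut hZ 5
      (fun z hz hz0 => even5 G ends hinj (fun e => e.2.1) htf hC4 z hz hz0)
    have : (eb G S S : ℤ) ≤ 2 * (Fintype.card E : ℤ) := by exact_mod_cast heb
    have h3 : 3 * (Fintype.card E : ℤ) + 10 ≤ 5 * S.card := by
      have : 3 * Fintype.card E + 10 ≤ 5 * S.card := by omega
      exact_mod_cast this
    linarith

end Pool.Agent.H32.BC
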