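import Pool.Agent.H32.BC.Defs

set_option autoImplicit false

/-!
If `s` is a proper 2-colouring of `G` on `B` and `G` on `B ∪ {v}` has no proper 2-colouring then `v` has
two neighbours `a, b` in `B` with different colours which are joined by a walk in `B`.

Proof (contrapositive). Let `H = inG G B`. Suppose that neighbours `a, b ∈ B` of `v` which are reachable
from each other in `H` always have the same colour. For a component `C` of `H` containing a
neighbour `a ∈ B` of `v` let `f C = s a` (well defined), otherwise `f C = false`. Put `s' v = true` and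
`s' x = xor (s x) (f [x])` for `x ≠ v`. An edge `x y` in `B` lies in one component: `s' x ≠ s' y`. An edge
`v a` with `a ∈ B`: `s' a = xor (s a) (s a) = false ≠ true`. (No edge `v v`.)
-/

namespace Pool.Agent.H32.BC

open Finset

theorem stuck {V : Type} (G : SimpleGraph V) (B : Set V) (v : V) (hv : v ∉ B) (s : V → Bool)
    (hs : ∀ x ∈ B, ∀ y ∈ B, G.Adj x y → s x ≠ s y)
    (h : ¬ ∃ s' : V → Bool, ∀ x ∈ insert v B, ∀ y ∈ insert v B, G.Adj x y → s' x ≠ s' y) :
    ∃ a b, a ∈ B ∧ b ∈ B ∧ G.Adj v a ∧ G.Adj v b ∧ s a ≠ s b ∧ (inG G B).Reachable a b := by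
  classical
  by_contra hcon
  have hc : ∀ a b, a ∈ B → b ∈ B → G.Adj v a → G.Adj v b → s a ≠ s b →
      ¬ (inG G B).Reachable a b := fun a b h1 h2 h3 h4 h5 h6 =>
    hcon ⟨a, b, h1, h2, h3, h4, h5, h6⟩
  apply h
  let F : V → Bool := fun x =>
    decide (∃ a, a ∈ B ∧ G.Adj v a ∧ (inG G B).Reachable a x ∧ s a = true)
  have hF : ∀ a, a ∈ B → G.Adj v a → F a = s a := by
    intro a ha hva
    cases hsa : s a with
    | true =>
      exact decide_eq_true ⟨a, ha, hva, SimpleGraph.Reachable.refl a, hsa⟩
    | false =>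
      refine decide_eq_false ?_
      rintro ⟨a', ha', hva', hr, hsa'⟩
      exact hc a' a ha' ha hva' hva (by rw [hsa, hsa']; decide) hr
  have hE : ∀ x ∈ B, ∀ y ∈ B, G.Adj x y → F x = F y := by
    intro x hx y hy hxy
    have hadj : (inG G B).Adj x y := ⟨hx, hy, hxy⟩
    have : (∃ a, a ∈ B ∧ G.Adj v a ∧ (inG G B).Reachable a x ∧ s a = true) ↔
        ∃ a, a ∈ B ∧ G.Adj v a ∧ (inG G B).Reachable a y ∧ s a = true := by
      constructor
      · rintro ⟨a, h1, h2, h3, h4⟩
        exact ⟨a, h1, h2, h3.trans hadj.reachable, h4⟩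
      · rintro ⟨a, h1, h2, h3, h4⟩
        exact ⟨a, h1, h2, h3.trans hadj.symm.reachable, h4⟩
    exact decide_eq_decide.mpr this
  refine ⟨fun x => if x = v then true else xor (s x) (F x), ?_⟩
  intro x hx y hy hxy
  have hne : ∀ x ∈ B, x ≠ v := fun x hx hxv => hv (hxv ▸ hx)
  rcases hx with rfl | hx
  · rcases hy with rfl | hy
    · exact absurd hxy (G.loopless.irrefl _)
    · beta_reduce
      rw [if_pos rfl, if_neg (hne y hy), hF y hy hxy]
      simp
  · rcases hy with rfl | hy
    · beta_reduce
      rw [if_pos rfl, if_neg (hne x hx), hF x hx hxy.symm]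
      simp
    · beta_reduce
      rw [if_neg (hne x hx), if_neg (hne y hy), hE x hx y hy hxy]
      have := hs x hx y hy hxy
      intro h2
      apply this
      cases h3 : s x <;> cases h4 : s y <;> cases h5 : F y <;> simp_all

end Pool.Agent.H32.BC
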