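import Pool.Agent.H32.BC.CL
import Pool.Agent.H32.BC.Stuck
import Pool.Agent.H32.BC.Descent

set_option autoImplicit false

/-!
The general theorem: `G` planar, triangle-free and 3-colourable on at least 2 vertices. `Good` a
property with `Good k` for `2 k ≤ n` such that for every independent `I` with `|I|` not good and every
choice of two common neighbours... : the number of pairs is more than `|B| - 3`.

Proof. `descent`; for `hmov`: `I` with `|I|` not good is nonempty (`hGood 0`). If no `v ∈ I` can be moved
then for each `v ∈ I` `stuck` (with `B = {x | x ∉ I}`; `insert v B = {x | x ∉ I.erase v}`) gives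
`a v`, `b v`; they are neighbours of `v`, not in `I`, different. `cl` gives
`(I.image ..).card + 3 + I.card ≤ Fintype.card V`, which contradicts `hpairs`.
-/

namespace Pool.Agent.H32.BC

open Finset Pool.Agent.H29.Tor

theorem gen {V : Type} [Fintype V] [DecidableEq V] (G : SimpleGraph V) (hG : IsPlanar G)
    (htf : ∀ a b c, G.Adj a b → G.Adj b c → ¬ G.Adj a c)
    (hn : 2 ≤ Fintype.card V) (hc : G.Colorable 3) (Good : ℕ → Prop)
    (hGood : ∀ k, 2 * k ≤ Fintype.card V → Good k)
    (hpairs : ∀ (I : Finset V) (a b : V → V), (∀ u ∈ I, ∀ v ∈ I, ¬ G.Adj u v) →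
      (∀ v ∈ I, a v ≠ b v ∧ G.Adj v (a v) ∧ G.Adj v (b v)) → ¬ Good I.card →
      Fintype.card V < (I.image (fun v => s(a v, b v))).card + 3 + I.card) :
    ∃ c : V → Fin 3, (∀ u v, G.Adj u v → c u ≠ c v) ∧
      ∀ i, Good (univ.filter (fun v => c v = i)).card := by
  classical
  refine descent G hn hc Good hGood ?_
  intro I s hI hs hgood
  by_contra hno
  push Not at hno
  have hI0 : I.Nonempty := by
    rw [Finset.nonempty_iff_ne_empty]
    rintro rfl
    exact hgood (hGood 0 (by simp))
  have hst : ∀ v, ∃ a b : V, v ∈ I → (G.Adj v a ∧ G.Adj v b ∧ s a ≠ s b ∧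
      (inG G {x | x ∉ I}).Reachable a b) := by
    intro v
    by_cases hv : v ∈ I
    · obtain ⟨a, b, _, _, h3, h4, h5, h6⟩ := stuck G {x | x ∉ I} v (by simpa using hv) s
        (fun x hx y hy hxy => hs x hx y hy hxy) (by
          rintro ⟨s', hs'⟩
          obtain ⟨x, hx, y, hy, hxy, he⟩ := hno v hv s'
          refine hs' x ?_ y ?_ hxy he
          · by_cases hxv : x = v
            · exact Or.inl hxv
            · refine Or.inr ?_
              intro hxI
              exact hx (Finset.mem_erase.2 ⟨hxv, hxI⟩)
          · by_cases hyv : y = v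
            · exact Or.inl hyv
            · refine Or.inr ?_
              intro hyI
              exact hy (Finset.mem_erase.2 ⟨hyv, hyI⟩))
      exact ⟨a, b, fun _ => ⟨h3, h4, h5, h6⟩⟩
    · exact ⟨v, v, fun h => absurd h hv⟩
  choose a b hab using hst
  have h1 := cl G hG htf I hI0 hI s (fun x hx y hy hxy => hs x hx y hy hxy) a b
    (fun v hv => hab v hv)
  have h2 := hpairs I a b hI (fun v hv => ⟨fun h => (hab v hv).2.2.1 (by rw [h]),
    (hab v hv).1, (hab v hv).2.1⟩) hgood
  omega

end Pool.Agent.H32.BC
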