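import Pool.Agent.H32.BC.K9

set_option autoImplicit false

/-!
Claim 10: in a minimal counterexample a proper subset with at least four vertices has (doubled)
potential at least 14.

Proof. Suppose `P G R < 14`; then `P G R ≤ 12` (`P_even`). Let `Rs` be the set of `u ∈ R` with a
neighbour outside `R`.
(i) `|Rs| ≤ 1` is impossible: let `T = (univ \ R) ∪ Rs`, not everything since `|R| ≥ 4 > |Rs|`.
Both `R` and `T` carry proper colourings `φ₁`, `φ₂` (`exists_col_of_sub`, `hS`). Compose `φ₂` with a
permutation of `Fin 3` so that both agree on `Rs` (at most one vertex); then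
`v ↦ if v ∈ R then φ₁ v else φ₂ v` is a proper 3-colouring of `G` (an edge between `u ∈ R` and
`v ∉ R` has `u ∈ Rs`): contradiction to `hc`.
(ii) So there are `u₁ ≠ u₂` in `Rs`. Let `H = G ⊔ (edge u₁ u₂)`. For nonempty `S ⊆ R`:
`P H S ≥ P G S - 6`, and if `|S| = 1` then `P H S = 10`, if `|S| ≥ 2` then `P G S ≥ 12` (`claim9`; `S` is
not everything). So `P H S ≥ 6` and `exists_col_of_sub` gives `φ`, proper on `R` for `H`, so proper
for `G` and `φ u₁ ≠ φ u₂`. Apply `yLemma`: `W`, `A`.
If `|A| ≥ 2` then `10 |A| - 3 |A| (|A| - 1) ≥ 12`, so `P G (W ∪ R) ≤ 4 - 12 + 12 = 4`: contradiction to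
`hS`. If `|A| = 1`: `P G (W ∪ R) + 6 (eb G W R - eb G W (filter)) ≤ 6`; as `eb G W (filter) ≤ eb G W R`,
`P G (W ∪ R) ≤ 6`, so `W ∪ R = univ` by `claim9`. One of `u₁`, `u₂`, say `u`, has `φ u ∉ A`; it has a
neighbour `w ∉ R`, `w ∈ W`, and the pair `(w, u)` is counted in `eb G W R`, not in
`eb G W (filter)`: so the difference is at least 1 and `P G (W ∪ R) ≤ 0`: contradiction to `hS`.
-/

namespace Pool.Agent.H32.BC

open Finset

variable {V : Type}

theorem eb_sup_edge (G : SimpleGraph V) (u₁ u₂ : V) (S : Finset V) :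
    eb (G ⊔ SimpleGraph.edge u₁ u₂) S S ≤ eb G S S + 2 := by
  classical
  unfold eb
  refine le_trans (Finset.card_le_card
    (t := ((S ×ˢ S).filter (fun p => G.Adj p.1 p.2)) ∪ {(u₁, u₂), (u₂, u₁)}) ?_) ?_
  · rintro ⟨x, y⟩ h
    simp only [mem_filter, SimpleGraph.sup_adj, SimpleGraph.edge_adj] at h
    simp only [mem_union, mem_filter, mem_insert, mem_singleton, Prod.mk.injEq]
    rcases h.2 with h2 | h2
    · exact Or.inl ⟨h.1, h2⟩
    · exact Or.inr h2.1
  · refine (Finset.card_union_le _ _).trans ?_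
    have h4 : ({(u₁, u₂), (u₂, u₁)} : Finset (V × V)).card ≤ 2 := Finset.card_le_two
    omega

theorem claim10 [Fintype V] [DecidableEq V] (G : SimpleGraph V) (IH : IHyp (Fintype.card V))
    (hS : Sparse G) (hc : ¬ G.Colorable 3) (R : Finset V) (h4 : 4 ≤ R.card) (hR : R ≠ univ) :
    14 ≤ P G R := by
  classical
  by_contra hlt
  push Not at hlt
  have hlt' : P G R ≤ 12 := by
    obtain ⟨k, hk⟩ := P_even G R
    omega
  set Rs := R.filter (fun u => ∃ w, w ∉ R ∧ G.Adj u w) with hRs
  by_cases hone : ∀ u₁ ∈ Rs, ∀ u₂ ∈ Rs, u₁ = u₂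
  · -- at most one attachment vertex
    have hcard1 : Rs.card ≤ 1 := Finset.card_le_one.2 hone
    set T := univ.filter (fun v => v ∉ R ∨ v ∈ Rs) with hT
    have hTne : T ≠ univ := by
      have h1 : ∃ v ∈ R, v ∉ Rs := by
        by_contra h
        push Not at h
        have := Finset.card_le_card (fun v hv => h v hv : R ⊆ Rs)
        omega
      obtain ⟨v, hv, hv'⟩ := h1
      intro h
      have : v ∈ T := by rw [h]; exact mem_univ v
      rw [hT, mem_filter] at this
      rcases this.2 with h2 | h2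
      · exact h2 hv
      · exact hv' h2
    obtain ⟨φ₁, hφ₁⟩ := exists_col_of_sub IH G R hR (fun S _ hne => hS S hne)
    obtain ⟨φ₂, hφ₂⟩ := exists_col_of_sub IH G T hTne (fun S _ hne => hS S hne)
    have hπ : ∃ π : Equiv.Perm (Fin 3), ∀ u ∈ Rs, π (φ₂ u) = φ₁ u := by
      by_cases hne : Rs.Nonempty
      · obtain ⟨u, hu⟩ := hne
        refine ⟨Equiv.swap (φ₂ u) (φ₁ u), fun u' hu' => ?_⟩
        rw [hone u' hu' u hu, Equiv.swap_apply_left]
      · refine ⟨1, fun u hu => absurd ⟨u, hu⟩ hne⟩
    obtain ⟨π, hπ⟩ := hπ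
    have hmix : ∀ x ∈ R, ∀ y ∉ R, G.Adj x y → φ₁ x ≠ π (φ₂ y) := by
      intro x hx y hy hxy
      have hxs : x ∈ Rs := by
        rw [hRs, mem_filter]
        exact ⟨hx, y, hy, hxy⟩
      rw [← hπ x hxs]
      intro h
      have h2 := π.injective h
      refine hφ₂ x ?_ y ?_ hxy h2
      · rw [hT, mem_filter]
        exact ⟨mem_univ _, Or.inr hxs⟩
      · rw [hT, mem_filter]
        exact ⟨mem_univ _, Or.inl hy⟩
    apply hc
    refine ⟨SimpleGraph.Coloring.mk (fun v => if v ∈ R then φ₁ v else π (φ₂ v)) ?_⟩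
    intro x y hxy
    by_cases hx : x ∈ R
    · by_cases hy : y ∈ R
      · rw [if_pos hx, if_pos hy]
        exact hφ₁ x hx y hy hxy
      · rw [if_pos hx, if_neg hy]
        exact hmix x hx y hy hxy
    · by_cases hy : y ∈ R
      · rw [if_neg hx, if_pos hy]
        exact (hmix y hy x hx hxy.symm).symm
      · rw [if_neg hx, if_neg hy]
        intro h
        have h2 := π.injective h
        refine hφ₂ x ?_ y ?_ hxy h2
        · rw [hT, mem_filter]
          exact ⟨mem_univ _, Or.inl hx⟩
        · rw [hT, mem_filter]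
          exact ⟨mem_univ _, Or.inl hy⟩
  · push Not at hone
    obtain ⟨u₁, hu₁, u₂, hu₂, hne⟩ := hone
    have hu₁R : u₁ ∈ R := (mem_filter.1 hu₁).1
    have hu₂R : u₂ ∈ R := (mem_filter.1 hu₂).1
    have hsub : ∀ S ⊆ R, S.Nonempty → 6 ≤ P (G ⊔ SimpleGraph.edge u₁ u₂) S := by
      intro S hSR hSne
      have h1 := hSne.card_pos
      by_cases h2 : S.card = 1
      · obtain ⟨v, rfl⟩ := Finset.card_eq_one.1 h2
        rw [P_singleton]
        norm_num
      · have h3 : S ≠ univ := by
          intro h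
          apply hR
          rw [Finset.eq_univ_iff_forall]
          intro v
          exact hSR (by rw [h]; exact mem_univ v)
        have h4 := claim9 G IH hS hc S (by omega) h3
        have h5 := eb_sup_edge G u₁ u₂ S
        unfold P at h4 ⊢
        omega
    obtain ⟨φ, hφ⟩ := exists_col_of_sub IH (G ⊔ SimpleGraph.edge u₁ u₂) R hR hsub
    have hφG : ProperOn G R φ := fun x hx y hy hxy => hφ x hx y hy (Or.inl hxy)
    have hφu : φ u₁ ≠ φ u₂ := by
      apply hφ u₁ hu₁R u₂ hu₂R
      rw [SimpleGraph.sup_adj, SimpleGraph.edge_adj]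
      exact Or.inr ⟨Or.inl ⟨rfl, rfl⟩, hne⟩
    obtain ⟨W, A, hWR, hA, h⟩ := yLemma G IH hS hc R h4 φ hφG
    have h1 : eb G W (R.filter (fun v => φ v ∈ A)) ≤ eb G W R :=
      eb_mono G (Finset.Subset.refl W) (Finset.filter_subset _ _)
    have hne2 : (W ∪ R).Nonempty := by
      rw [Finset.union_nonempty]
      exact Or.inr ⟨u₁, hu₁R⟩
    have h5 : 6 ≤ P G (W ∪ R) := hS _ hne2
    have h6 : A.card = 1 ∨ A.card = 2 ∨ A.card = 3 := by
      have h7 := hA.card_pos
      have h8 : A.card ≤ 3 := by
        have := Finset.card_le_univ A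
        rwa [Fintype.card_fin] at this
      omega
    rcases h6 with h6 | h6 | h6
    · have hWRu : W ∪ R = univ := by
        by_contra hne3
        have h7 : 2 ≤ (W ∪ R).card := by
          have := Finset.card_le_card (Finset.subset_union_right : R ⊆ W ∪ R)
          omega
        have h8 := claim9 G IH hS hc (W ∪ R) h7 hne3
        rw [h6] at h
        norm_num at h
        omega
      have hu : ∃ u ∈ Rs, φ u ∉ A := by
        by_contra hcon
        push Not at hcon
        have h7 := hcon u₁ hu₁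
        have h8 := hcon u₂ hu₂
        exact hφu (Finset.card_le_one.1 h6.le _ h7 _ h8)
      obtain ⟨u, hu, huA⟩ := hu
      obtain ⟨huR, w, hw, huw⟩ := mem_filter.1 hu
      have hwW : w ∈ W := by
        have : w ∈ W ∪ R := by rw [hWRu]; exact mem_univ w
        rcases mem_union.1 this with h7 | h7
        · exact h7
        · exact absurd h7 hw
      have h9 : eb G W (R.filter (fun v => φ v ∈ A)) < eb G W R := by
        unfold eb
        apply Finset.card_lt_card
        rw [Finset.ssubset_iff_of_subset]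
        · refine ⟨(w, u), ?_, ?_⟩
          · simp only [mem_filter, mem_product]
            exact ⟨⟨hwW, huR⟩, huw.symm⟩
          · simp only [mem_filter, mem_product]
            intro h10
            exact huA h10.1.2.2
        · apply Finset.filter_subset_filter
          exact Finset.product_subset_product (Finset.Subset.refl W) (Finset.filter_subset _ _)
      rw [h6] at h
      norm_num at h
      omega
    · rw [h6] at h
      norm_num at h
      omega
    · rw [h6] at h
      norm_num at h
      omega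

end Pool.Agent.H32.BC
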