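import Pool.Agent.H32.BC.KDeg

set_option autoImplicit false

/-!
Claim 12: in a minimal counterexample let `x`, `y` be adjacent vertices with exactly three neighbours
each, and let `y, a, b` be the neighbours of `x` (different). Then `a` and `b` are adjacent.

Proof. Suppose not. Let `G'` be `G` with the edges at `y` replaced by `yx`, `ya`, `yb`:
`G'.Adj u v ↔ (u ≠ y ∧ v ≠ y ∧ G.Adj u v) ∨ (u = y ∧ v ∈ {x, a, b}) ∨ (v = y ∧ u ∈ {x, a, b})`.
(1) `G'` is not 3-colourable. Let `ψ` be a proper colouring of `G'`. `x`, `y` are adjacent in `G'` and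
both are adjacent to `a` and `b`, so `ψ a = ψ b` (three colours). Let `c`, `d` be the two neighbours
of `y` in `G` other than `x` (both `≠ y`). Choose `γ ∉ {ψ c, ψ d}` and then `ξ ∉ {ψ a, γ}`. Then
`x ↦ ξ`, `y ↦ γ`, `v ↦ ψ v` otherwise is a proper 3-colouring of `G` (the neighbours of `x` are
`y, a, b`, those of `y` are `x, c, d`): contradiction to `hc`.
(2) `G'` is not sparse: if it were, then it would satisfy the hypotheses of `no_diamond` (same
`V`, same `IH`), but `x ~ y`, `x ~ a`, `x ~ b`, `y ~ a`, `y ~ b`, `a ≠ b` in `G'`.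
(3) So there is a nonempty `S` with `P G' S < 6`, `≤ 4` (`P_even`). If `y ∉ S` then `P G S = P G' S`,
contradiction to `hS`. Let `T = S.erase y`. `P G' S = P G' T + 10 - 6 eb G' {y} T`, `P G' T = P G T`,
`eb G' {y} T = |T ∩ {x, a, b}| =: k ≤ 3`. So `P G T ≤ 4 - 10 + 6 k`. `T` is nonempty (`P G' {y} = 10`). If
`|T| = 1` then `P G T = 10` and `k ≤ 1`: `10 ≤ 0`, contradiction. So `|T| ≥ 2`, `T ≠ univ` (`y ∉ T`),
`P G T ≤ 12`, so by `tri_of_P` `T` is a triangle; by `claim9` `P G T ≥ 12`, so `k = 3` and
`T = {x, a, b}`, so `a ~ b` in `G`.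
-/

namespace Pool.Agent.H32.BC

open Finset

variable {V : Type}

/-- the graph in which `y` is replaced by a twin of `x` adjacent to `x` -/
def twG (G : SimpleGraph V) (x y a b : V) (hxy : x ≠ y) (hay : a ≠ y) (hby : b ≠ y) :
    SimpleGraph V where
  Adj u v := (u ≠ y ∧ v ≠ y ∧ G.Adj u v) ∨ (u = y ∧ (v = x ∨ v = a ∨ v = b)) ∨
    (v = y ∧ (u = x ∨ u = a ∨ u = b))
  symm := by
    constructor
    rintro u v (h | h | h)
    · exact Or.inl ⟨h.2.1, h.1, h.2.2.symm⟩
    · exact Or.inr (Or.inr h)
    · exact Or.inr (Or.inl h)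
  loopless := by
    constructor
    rintro u (h | ⟨rfl, h | h | h⟩ | ⟨rfl, h | h | h⟩)
    · exact G.loopless.irrefl _ h.2.2
    · exact hxy h.symm
    · exact hay h.symm
    · exact hby h.symm
    · exact hxy h.symm
    · exact hay h.symm
    · exact hby h.symm

theorem fin3_a : ∀ p q r s : Fin 3, p ≠ q → p ≠ r → q ≠ r → p ≠ s → q ≠ s → r = s := by
  decide

theorem fin3_b : ∀ p q : Fin 3, ∃ r : Fin 3, r ≠ p ∧ r ≠ q := by
  decide

theorem claim12 [Fintype V] [DecidableEq V] (G : SimpleGraph V) (IH : IHyp (Fintype.card V))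
    (hS : Sparse G) (hc : ¬ G.Colorable 3) (x y a b : V) (hxy : G.Adj x y)
    (hx : (nb G x).card = 3) (hy : (nb G y).card = 3) (hxa : G.Adj x a) (hxb : G.Adj x b)
    (hay : a ≠ y) (hby : b ≠ y) (hab : a ≠ b) : G.Adj a b := by
  classical
  have nxy := G.ne_of_adj hxy
  have nxa := G.ne_of_adj hxa
  have nxb := G.ne_of_adj hxb
  have hnx : nb G x = {y, a, b} := by
    symm
    apply Finset.eq_of_subset_of_card_le
    · intro t ht
      rw [mem_nb]
      simp only [mem_insert, mem_singleton] at ht
      rcases ht with rfl | rfl | rfl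
      · exact hxy
      · exact hxa
      · exact hxb
    · rw [hx, Finset.card_eq_three.2 ⟨y, a, b, hay.symm, hby.symm, hab, rfl⟩]
  have hxw : ∀ w, G.Adj x w → w = y ∨ w = a ∨ w = b := by
    intro w hw
    rw [← mem_nb, hnx] at hw
    simpa using hw
  have hynx : x ∈ nb G y := (mem_nb G y x).2 hxy.symm
  have h2 : ((nb G y).erase x).card = 2 := by
    rw [Finset.card_erase_of_mem hynx, hy]
  obtain ⟨c, d, hcd, hcd'⟩ := Finset.card_eq_two.1 h2
  have hc1 : c ∈ (nb G y).erase x := by rw [hcd']; simp
  have hd1 : d ∈ (nb G y).erase x := by rw [hcd']; simp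
  rw [mem_erase, mem_nb] at hc1 hd1
  have hyw : ∀ w, G.Adj y w → w = x ∨ w = c ∨ w = d := by
    intro w hw
    by_cases hwx : w = x
    · exact Or.inl hwx
    · right
      have : w ∈ (nb G y).erase x := by
        rw [mem_erase, mem_nb]
        exact ⟨hwx, hw⟩
      rw [hcd'] at this
      simpa using this
  set G' := twG G x y a b nxy hay hby with hG'
  have adj_ne : ∀ u v, u ≠ y → v ≠ y → (G'.Adj u v ↔ G.Adj u v) := by
    intro u v hu hv
    constructor
    · rintro (h | h | h)
      · exact h.2.2
      · exact absurd h.1 hu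
      · exact absurd h.1 hv
    · intro h
      exact Or.inl ⟨hu, hv, h⟩
  have adj_y : ∀ v, G'.Adj y v ↔ (v = x ∨ v = a ∨ v = b) := by
    intro v
    constructor
    · rintro (h | h | h)
      · exact absurd rfl h.1
      · exact h.2
      · rcases h.2 with h3 | h3 | h3
        · exact absurd h3.symm nxy
        · exact absurd h3.symm hay
        · exact absurd h3.symm hby
    · intro h
      exact Or.inr (Or.inl ⟨rfl, h⟩)
  -- (1) not colourable
  have hc' : ¬ G'.Colorable 3 := by
    rintro ⟨C⟩
    have e1 : C x ≠ C y := C.valid ((adj_y x).2 (Or.inl rfl)).symm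
    have e2 : C x ≠ C a := C.valid ((adj_ne x a nxy hay).2 hxa)
    have e3 : C y ≠ C a := C.valid ((adj_y a).2 (Or.inr (Or.inl rfl)))
    have e4 : C x ≠ C b := C.valid ((adj_ne x b nxy hby).2 hxb)
    have e5 : C y ≠ C b := C.valid ((adj_y b).2 (Or.inr (Or.inr rfl)))
    have e6 : C a = C b := fin3_a _ _ _ _ e1 e2 e3 e4 e5
    obtain ⟨γ, hγc, hγd⟩ := fin3_b (C c) (C d)
    obtain ⟨ξ, hξa, hξγ⟩ := fin3_b (C a) γ
    have hcy : c ≠ y := (G.ne_of_adj hc1.2).symm
    have hdy : d ≠ y := (G.ne_of_adj hd1.2).symm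
    have H1 : ∀ w, G.Adj x w → ξ ≠ (if w = x then ξ else if w = y then γ else C w) := by
      intro w hw
      rcases hxw w hw with rfl | rfl | rfl
      · rw [if_neg nxy.symm, if_pos rfl]
        exact hξγ
      · rw [if_neg nxa.symm, if_neg hay]
        exact hξa
      · rw [if_neg nxb.symm, if_neg hby, ← e6]
        exact hξa
    have H2 : ∀ w, G.Adj y w → γ ≠ (if w = x then ξ else if w = y then γ else C w) := by
      intro w hw
      rcases hyw w hw with rfl | rfl | rfl
      · rw [if_pos rfl]
        exact hξγ.symm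
      · rw [if_neg hc1.1, if_neg hcy]
        exact hγc
      · rw [if_neg hd1.1, if_neg hdy]
        exact hγd
    apply hc
    refine ⟨SimpleGraph.Coloring.mk
      (fun w => if w = x then ξ else if w = y then γ else C w) ?_⟩
    intro u v huv
    by_cases hu : u = x
    · subst hu
      have := H1 v huv
      simpa using this
    · by_cases hv : v = x
      · subst hv
        have := H1 u huv.symm
        intro h
        apply this
        simpa using h.symm
      · by_cases hu' : u = y
        · subst hu'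
          have := H2 v huv
          simpa [hu] using this
        · by_cases hv' : v = y
          · subst hv'
            have := H2 u huv.symm
            intro h
            apply this
            simpa [hv] using h.symm
          · simp only [if_neg hu, if_neg hv, if_neg hu', if_neg hv']
            exact C.valid ((adj_ne u v hu' hv').2 huv)
  -- (2) not sparse
  have hS' : ¬ Sparse G' := by
    intro hsp
    exact no_diamond G' IH hsp hc' x y a b ((adj_y x).2 (Or.inl rfl)).symm
      ((adj_ne x a nxy hay).2 hxa) ((adj_ne x b nxy hby).2 hxb)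
      ((adj_y a).2 (Or.inr (Or.inl rfl))) ((adj_y b).2 (Or.inr (Or.inr rfl))) hab
  -- (3)
  have P_eq : ∀ T : Finset V, y ∉ T → P G' T = P G T := by
    intro T hT
    have h := P_map G G' (Function.Embedding.refl V) T (by
      intro u hu v hv
      exact adj_ne u v (fun h => hT (h ▸ hu)) (fun h => hT (h ▸ hv)))
    rw [Finset.map_refl] at h
    exact h
  unfold Sparse at hS'
  push Not at hS'
  obtain ⟨S, hSne, hPS⟩ := hS'
  have hPS' : P G' S ≤ 4 := by
    obtain ⟨k, hk⟩ := P_even G' S
    omega
  have hyS : y ∈ S := by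
    by_contra hyS
    rw [P_eq S hyS] at hPS'
    have := hS S hSne
    omega
  set T := S.erase y with hT
  have hyT : y ∉ T := Finset.notMem_erase y S
  have hST : S = {y} ∪ T := by
    rw [← Finset.insert_eq, hT, Finset.insert_erase hyS]
  have hdis : Disjoint {y} T := by simpa using hyT
  have hP2 : P G' S = 10 + P G T - 6 * (eb G' {y} T : ℤ) := by
    conv_lhs => rw [hST]
    rw [P_union G' hdis, P_singleton, P_eq T hyT]
  have hk : eb G' {y} T = (nb G' y ∩ T).card := by
    rw [eb_eq_sum, Finset.sum_singleton]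
  have hsub : nb G' y ∩ T ⊆ {x, a, b} := by
    intro t ht
    rw [mem_inter, mem_nb, adj_y] at ht
    simpa using ht.1
  have hk3 : (nb G' y ∩ T).card ≤ 3 := (Finset.card_le_card hsub).trans Finset.card_le_three
  have hkT : (nb G' y ∩ T).card ≤ T.card := Finset.card_le_card Finset.inter_subset_right
  rw [hk] at hP2
  have hTcard : 2 ≤ T.card := by
    by_contra h
    have h1 : T.card = 0 ∨ T.card = 1 := by omega
    rcases h1 with h1 | h1
    · rw [Finset.card_eq_zero] at h1
      rw [h1] at hST
      rw [hST, Finset.union_empty, P_singleton] at hPS'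
      omega
    · obtain ⟨t, ht⟩ := Finset.card_eq_one.1 h1
      have h2 : P G T = 10 := by rw [ht, P_singleton]
      omega
  have hTne : T ≠ univ := by
    intro h
    exact hyT (by rw [h]; exact mem_univ y)
  have h9 := claim9 G IH hS hc T hTcard hTne
  obtain ⟨h3, htri⟩ := tri_of_P G IH hS hc T hTcard hTne (by omega)
  have hk' : (nb G' y ∩ T).card = 3 := by omega
  have heq : nb G' y ∩ T = {x, a, b} := by
    apply Finset.eq_of_subset_of_card_le hsub
    rw [hk']
    exact Finset.card_le_three
  have haT : a ∈ T := by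
    have : a ∈ nb G' y ∩ T := by rw [heq]; simp
    exact (mem_inter.1 this).2
  have hbT : b ∈ T := by
    have : b ∈ nb G' y ∩ T := by rw [heq]; simp
    exact (mem_inter.1 this).2
  exact htri a haT b hbT hab

end Pool.Agent.H32.BC
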