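import Pool.Agent.H32.BC.KBasic

set_option autoImplicit false

/-!
From the induction hypothesis: if `R` is not everything and all nonempty subsets of `R` have
potential at least 6 in `H` then `H` restricted to `R` is 3-colourable.
Proof: apply `IH` to `H.comap` on the subtype `{v // v ∈ R}` (card `= R.card < card V`); a nonempty
`S` there has the potential of its image (`P_map`), a nonempty subset of `R`. Extend the colouring by
an arbitrary value outside `R`.
-/

namespace Pool.Agent.H32.BC

open Finset

variable {V : Type}

theorem exists_col_of_sub [Fintype V] (IH : IHyp (Fintype.card V)) (H : SimpleGraph V)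
    (R : Finset V) (hR : R ≠ univ) (h : ∀ S ⊆ R, S.Nonempty → 6 ≤ P H S) :
    ∃ φ : V → Fin 3, ProperOn H R φ := by
  classical
  have hcard : Fintype.card {v // v ∈ R} < Fintype.card V := by
    rw [Fintype.card_coe]
    exact Finset.card_lt_card (Finset.ssubset_univ_iff.2 hR)
  let f : {v // v ∈ R} ↪ V := Function.Embedding.subtype (fun v => v ∈ R)
  have hsp : Sparse (H.comap f) := by
    intro S hS
    rw [P_map H (H.comap f) f S (fun x _ y _ => Iff.rfl)]
    apply h
    · intro x hx
      rw [Finset.mem_map] at hx
      obtain ⟨y, _, rfl⟩ := hx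
      exact y.2
    · exact hS.map
  obtain ⟨C⟩ := IH {v // v ∈ R} hcard (H.comap f) hsp
  refine ⟨fun v => if hv : v ∈ R then C ⟨v, hv⟩ else 0, ?_⟩
  intro u hu v hv huv
  simp only [dif_pos hu, dif_pos hv]
  exact C.valid (show (H.comap f).Adj ⟨u, hu⟩ ⟨v, hv⟩ from huv)

end Pool.Agent.H32.BC
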