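import Pool.Agent.H32.BC.KY1
import Pool.Agent.H32.BC.KSub

set_option autoImplicit false

/-!
Claim 9: in a minimal counterexample a proper subset with at least two vertices has (doubled)
potential at least 12.

Proof. Suppose `P G R < 12`, so `P G R ≤ 10` (`P_even`). By `eb_self_le` `|R| = 2` gives `P ≥ 14`,
`|R| = 3` gives `P ≥ 12`; so `|R| ≥ 4`. `G` restricted to `R` is 3-colourable (`exists_col_of_sub`,
`hS`); by `yLemma` there are `W`, `A`, and `10 |A| - 3 |A| (|A| - 1) ≥ 10` for `|A| = 1, 2, 3`,
`eb G W (filter) ≤ eb G W R` (`eb_mono`), so `P G (W ∪ R) ≤ P G R - 6 ≤ 4`. This contradicts `hS`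
(`W ∪ R` is nonempty).
-/

namespace Pool.Agent.H32.BC

open Finset

variable {V : Type}

theorem claim9 [Fintype V] [DecidableEq V] (G : SimpleGraph V) (IH : IHyp (Fintype.card V))
    (hS : Sparse G) (hc : ¬ G.Colorable 3) (R : Finset V) (h2 : 2 ≤ R.card) (hR : R ≠ univ) :
    12 ≤ P G R := by
  classical
  by_contra hlt
  push Not at hlt
  have hlt' : P G R ≤ 10 := by
    obtain ⟨k, hk⟩ := P_even G R
    omega
  have hle := eb_self_le G R
  have h4 : 4 ≤ R.card := by
    by_contra h
    have h3 : R.card = 2 ∨ R.card = 3 := by omega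
    unfold P at hlt'
    rcases h3 with h3 | h3
    · rw [h3] at hle hlt'
      norm_num at hle hlt'
      omega
    · rw [h3] at hle hlt'
      norm_num at hle hlt'
      omega
  obtain ⟨φ, hφ⟩ := exists_col_of_sub IH G R hR (fun S _ hne => hS S hne)
  obtain ⟨W, A, hWR, hA, h⟩ := yLemma G IH hS hc R h4 φ hφ
  have h1 : eb G W (R.filter (fun v => φ v ∈ A)) ≤ eb G W R :=
    eb_mono G (Finset.Subset.refl W) (Finset.filter_subset _ _)
  have h5 : 6 ≤ P G (W ∪ R) := by
    apply hS
    rw [Finset.union_nonempty]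
    right
    rw [← Finset.card_pos]
    omega
  have h6 : A.card = 1 ∨ A.card = 2 ∨ A.card = 3 := by
    have h7 := hA.card_pos
    have h8 : A.card ≤ 3 := by
      have := Finset.card_le_univ A
      rwa [Fintype.card_fin] at this
    omega
  rcases h6 with h6 | h6 | h6 <;> rw [h6] at h <;> norm_num at h <;> omega

end Pool.Agent.H32.BC
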