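import Pool.Agent.H32.BC.Defs

set_option autoImplicit false

/-! Basic facts on `eb` and `P`. -/

namespace Pool.Agent.H32.BC

open Finset

variable {V : Type}

theorem eb_comm (G : SimpleGraph V) (S T : Finset V) : eb G S T = eb G T S := by
  classical
  unfold eb
  apply Finset.card_bij (fun p _ => (p.2, p.1))
  · rintro ⟨x, y⟩ h
    simp only [mem_filter, mem_product] at h ⊢
    exact ⟨⟨h.1.2, h.1.1⟩, h.2.symm⟩
  · rintro ⟨x, y⟩ _ ⟨x', y'⟩ _ h
    simp only [Prod.mk.injEq] at h ⊢
    exact ⟨h.2, h.1⟩
  · rintro ⟨x, y⟩ h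
    simp only [mem_filter, mem_product] at h
    refine ⟨(y, x), ?_, rfl⟩
    simp only [mem_filter, mem_product]
    exact ⟨⟨h.1.2, h.1.1⟩, h.2.symm⟩

theorem eb_union_left [DecidableEq V] (G : SimpleGraph V) {S S' : Finset V} (h : Disjoint S S')
    (T : Finset V) : eb G (S ∪ S') T = eb G S T + eb G S' T := by
  classical
  unfold eb
  rw [Finset.union_product, Finset.filter_union, Finset.card_union_of_disjoint]
  apply Finset.disjoint_filter_filter
  rw [Finset.disjoint_left]
  rintro ⟨x, y⟩ h1 h2
  simp only [mem_product] at h1 h2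
  exact (Finset.disjoint_left.1 h) h1.1 h2.1

theorem eb_union_right [DecidableEq V] (G : SimpleGraph V) (S : Finset V) {T T' : Finset V}
    (h : Disjoint T T') : eb G S (T ∪ T') = eb G S T + eb G S T' := by
  rw [eb_comm, eb_union_left G h, eb_comm G T, eb_comm G T']

theorem eb_mono (G : SimpleGraph V) {S S' T T' : Finset V} (h : S ⊆ S') (h' : T ⊆ T') :
    eb G S T ≤ eb G S' T' := by
  classical
  unfold eb
  apply Finset.card_le_card
  apply Finset.filter_subset_filter
  exact Finset.product_subset_product h h'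

theorem eb_le_of_le {G H : SimpleGraph V} (h : G ≤ H) (S T : Finset V) : eb G S T ≤ eb H S T := by
  classical
  unfold eb
  apply Finset.card_le_card
  intro p hp
  simp only [mem_filter] at hp ⊢
  exact ⟨hp.1, h hp.2⟩

theorem eb_eq_sum [Fintype V] [DecidableEq V] (G : SimpleGraph V) (S T : Finset V) :
    eb G S T = ∑ v ∈ S, (nb G v ∩ T).card := by
  classical
  unfold eb nb
  rw [Finset.card_filter, Finset.sum_product]
  refine Finset.sum_congr rfl fun v _ => ?_
  rw [← Finset.card_filter]
  congr 1
  ext w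
  simp only [mem_filter, mem_inter, mem_univ, true_and]
  tauto

theorem P_singleton (G : SimpleGraph V) (v : V) : P G {v} = 10 := by
  classical
  have : eb G {v} {v} = 0 := by
    unfold eb
    rw [Finset.card_eq_zero, Finset.filter_eq_empty_iff]
    rintro ⟨x, y⟩ h
    simp only [mem_product, mem_singleton] at h
    rw [h.1, h.2]
    exact G.loopless.irrefl v
  unfold P
  rw [this]
  simp

/-- the number of adjacent ordered pairs in `S` is even -/
theorem eb_self_even (G : SimpleGraph V) (S : Finset V) : Even (eb G S S) := by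
  classical
  induction S using Finset.induction_on with
  | empty => simp [eb]
  | insert a S ha ih =>
    have hd : Disjoint {a} S := by simpa using ha
    have h0 : eb G {a} {a} = 0 := by
      have h1 := P_singleton G a
      unfold P at h1
      simp only [card_singleton] at h1
      omega
    rw [Finset.insert_eq, eb_union_left G hd, eb_union_right G _ hd, eb_union_right G _ hd, h0,
      eb_comm G S {a}]
    obtain ⟨k, hk⟩ := ih
    exact ⟨eb G {a} S + k, by omega⟩

theorem eb_self_le (G : SimpleGraph V) (S : Finset V) :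
    eb G S S ≤ S.card * (S.card - 1) := by
  classical
  have h1 : eb G S S ≤ S.offDiag.card := by
    unfold eb
    apply Finset.card_le_card
    rintro ⟨x, y⟩ h
    simp only [mem_filter, mem_product, mem_offDiag] at h ⊢
    exact ⟨h.1.1, h.1.2, G.ne_of_adj h.2⟩
  rw [Finset.offDiag_card] at h1
  rw [Nat.mul_sub, mul_one]
  exact h1

theorem P_union [DecidableEq V] (G : SimpleGraph V) {S T : Finset V} (h : Disjoint S T) :
    P G (S ∪ T) = P G S + P G T - 6 * (eb G S T : ℤ) := by
  unfold P
  rw [eb_union_left G h, eb_union_right G _ h, eb_union_right G _ h, eb_comm G T S,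
    Finset.card_union_of_disjoint h]
  push_cast
  ring

theorem P_anti {G H : SimpleGraph V} (h : G ≤ H) (S : Finset V) : P H S ≤ P G S := by
  unfold P
  have := eb_le_of_le h S S
  omega

theorem P_even (G : SimpleGraph V) (S : Finset V) : Even (P G S) := by
  unfold P
  obtain ⟨k, hk⟩ := eb_self_even G S
  rw [hk]
  exact ⟨5 * (S.card : ℤ) - 3 * k, by push_cast; ring⟩

/-- transfer along an embedding of vertex sets -/
theorem eb_map {W : Type} (G : SimpleGraph V) (H : SimpleGraph W) (f : W ↪ V) (S T : Finset W)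
    (h : ∀ x ∈ S, ∀ y ∈ T, (H.Adj x y ↔ G.Adj (f x) (f y))) :
    eb H S T = eb G (S.map f) (T.map f) := by
  classical
  unfold eb
  apply Finset.card_bij (fun p _ => (f p.1, f p.2))
  · rintro ⟨x, y⟩ hp
    simp only [mem_filter, mem_product] at hp
    simp only [mem_filter, mem_product, mem_map']
    exact ⟨hp.1, (h x hp.1.1 y hp.1.2).1 hp.2⟩
  · rintro ⟨x, y⟩ _ ⟨x', y'⟩ _ h
    simp only [Prod.mk.injEq, EmbeddingLike.apply_eq_iff_eq] at h ⊢
    exact h
  · rintro ⟨x, y⟩ hp
    simp only [mem_filter, mem_product, mem_map] at hp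
    obtain ⟨⟨⟨x', hx', rfl⟩, ⟨y', hy', rfl⟩⟩, hadj⟩ := hp
    refine ⟨(x', y'), ?_, rfl⟩
    simp only [mem_filter, mem_product]
    exact ⟨⟨hx', hy'⟩, (h x' hx' y' hy').2 hadj⟩

theorem P_map {W : Type} (G : SimpleGraph V) (H : SimpleGraph W) (f : W ↪ V) (S : Finset W)
    (h : ∀ x ∈ S, ∀ y ∈ S, (H.Adj x y ↔ G.Adj (f x) (f y))) :
    P H S = P G (S.map f) := by
  unfold P
  rw [eb_map G H f S S h, Finset.card_map]

end Pool.Agent.H32.BC
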