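import Pool.Agent.H32.BC.K10

set_option autoImplicit false

/-!
Consequences of claims 9 and 10 for a minimal counterexample:

* `min_deg`: every vertex has at least 3 neighbours. (Otherwise colour `univ \ {v}` by
  `exists_col_of_sub` (`hS`) and give `v` a colour different from those of its at most 2 neighbours.)
* `five_le`: at least 5 vertices. (A vertex has at least 3 neighbours; there is a vertex, as the empty
  graph is colourable; with exactly 4 vertices every `nb G v` has 3 elements, so
  `eb G univ univ = 12` (`eb_eq_sum`) and `P G univ = 4 < 6`.)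
* `tri_of_P`: a proper subset with at least 2 vertices and `P ≤ 12` is a triangle. (`claim10` excludes
  `|S| ≥ 4`; `|S| = 2` has `P ≥ 14` by `eb_self_le`; `|S| = 3`: `30 - 3 eb ≤ 12` gives `eb ≥ 6 = 3 * 2`, so all
  ordered pairs of different vertices are adjacent.)
* `no_diamond`: no four different vertices with five edges. (`S = {x, y, z, w}` has `eb G S S ≥ 10`,
  so `P G S ≤ 10`, and `S ≠ univ` by `five_le`: contradiction to `claim10`.)
-/

namespace Pool.Agent.H32.BC

open Finset

variable {V : Type}

theorem mem_nb [Fintype V] (G : SimpleGraph V) (v w : V) : w ∈ nb G v ↔ G.Adj v w := by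
  classical
  unfold nb
  simp

theorem min_deg [Fintype V] [DecidableEq V] (G : SimpleGraph V) (IH : IHyp (Fintype.card V))
    (hS : Sparse G) (hc : ¬ G.Colorable 3) (v : V) : 3 ≤ (nb G v).card := by
  classical
  by_contra hlt
  push Not at hlt
  have hR : (univ.erase v : Finset V) ≠ univ := by
    intro h
    have h1 : v ∈ (univ.erase v : Finset V) := by rw [h]; exact mem_univ v
    exact (Finset.notMem_erase v univ) h1
  obtain ⟨φ, hφ⟩ := exists_col_of_sub IH G _ hR (fun S _ hne => hS S hne)
  have hγ : ∃ γ : Fin 3, γ ∉ (nb G v).image φ := by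
    by_contra h
    push Not at h
    have h1 : (univ : Finset (Fin 3)) ⊆ (nb G v).image φ := fun γ _ => h γ
    have h2 := Finset.card_le_card h1
    have h3 : ((nb G v).image φ).card ≤ (nb G v).card := Finset.card_image_le
    rw [Finset.card_univ, Fintype.card_fin] at h2
    omega
  obtain ⟨γ, hγ⟩ := hγ
  have hγ' : ∀ w, G.Adj v w → φ w ≠ γ := by
    intro w hw h
    apply hγ
    rw [mem_image]
    exact ⟨w, (mem_nb G v w).2 hw, h⟩
  apply hc
  refine ⟨SimpleGraph.Coloring.mk (fun x => if x = v then γ else φ x) ?_⟩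
  intro x y hxy
  by_cases hx : x = v
  · subst hx
    have hy : y ≠ x := (G.ne_of_adj hxy).symm
    rw [if_pos rfl, if_neg hy]
    exact (hγ' y hxy).symm
  · by_cases hy : y = v
    · subst hy
      rw [if_neg hx, if_pos rfl]
      exact hγ' x hxy.symm
    · rw [if_neg hx, if_neg hy]
      exact hφ x (by simp [hx]) y (by simp [hy]) hxy

theorem five_le [Fintype V] [DecidableEq V] (G : SimpleGraph V) (IH : IHyp (Fintype.card V))
    (hS : Sparse G) (hc : ¬ G.Colorable 3) : 5 ≤ Fintype.card V := by
  classical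
  have hne : Nonempty V := by
    by_contra h
    rw [not_nonempty_iff] at h
    apply hc
    exact ⟨SimpleGraph.Coloring.mk (fun x => (h.elim x : Fin 3)) (fun {x} => h.elim x)⟩
  obtain ⟨v⟩ := hne
  have hsub : ∀ v, nb G v ⊆ univ.erase v := by
    intro v w hw
    rw [mem_nb] at hw
    rw [mem_erase]
    exact ⟨(G.ne_of_adj hw).symm, mem_univ _⟩
  have hcard : ∀ v, (nb G v).card + 1 ≤ Fintype.card V := by
    intro v
    have h1 := Finset.card_le_card (hsub v)
    rw [Finset.card_erase_of_mem (mem_univ v), Finset.card_univ] at h1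
    have h2 : 0 < Fintype.card V := Fintype.card_pos_iff.2 ⟨v⟩
    omega
  have h3 := min_deg G IH hS hc v
  have h4 := hcard v
  by_contra h5
  have h6 : Fintype.card V = 4 := by omega
  have h7 : 12 ≤ eb G univ univ := by
    rw [eb_eq_sum]
    have h8 : ∑ v : V, 3 ≤ ∑ v : V, (nb G v ∩ univ).card := by
      apply Finset.sum_le_sum
      intro w _
      rw [Finset.inter_univ]
      exact min_deg G IH hS hc w
    rw [Finset.sum_const, Finset.card_univ, h6] at h8
    exact h8
  have h9 := hS univ ⟨v, mem_univ v⟩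
  unfold P at h9
  rw [Finset.card_univ, h6] at h9
  omega

theorem tri_of_P [Fintype V] [DecidableEq V] (G : SimpleGraph V) (IH : IHyp (Fintype.card V))
    (hS : Sparse G) (hc : ¬ G.Colorable 3) (S : Finset V) (h2 : 2 ≤ S.card) (hne : S ≠ univ)
    (hP : P G S ≤ 12) : S.card = 3 ∧ ∀ u ∈ S, ∀ v ∈ S, u ≠ v → G.Adj u v := by
  classical
  have h4 : ¬ 4 ≤ S.card := by
    intro h4
    have := claim10 G IH hS hc S h4 hne
    omega
  have hle := eb_self_le G S
  have h3 : S.card = 3 := by
    by_contra h3
    have h5 : S.card = 2 := by omega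
    unfold P at hP
    rw [h5] at hle hP
    norm_num at hle hP
    omega
  refine ⟨h3, ?_⟩
  have h6 : 6 ≤ eb G S S := by
    unfold P at hP
    rw [h3] at hP
    omega
  have h7 : ((S ×ˢ S).filter (fun p => G.Adj p.1 p.2)) = S.offDiag := by
    apply Finset.eq_of_subset_of_card_le
    · rintro ⟨x, y⟩ h
      simp only [mem_filter, mem_product, mem_offDiag] at h ⊢
      exact ⟨h.1.1, h.1.2, G.ne_of_adj h.2⟩
    · rw [Finset.offDiag_card, h3]
      refine le_trans ?_ (le_trans h6 ?_)
      · norm_num
      · unfold eb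
        apply Finset.card_le_card
        intro p hp
        rw [mem_filter] at hp ⊢
        exact hp
  intro u hu v hv huv
  have h8 : (u, v) ∈ S.offDiag := by
    rw [mem_offDiag]
    exact ⟨hu, hv, huv⟩
  rw [← h7, mem_filter] at h8
  exact h8.2

theorem no_diamond [Fintype V] [DecidableEq V] (G : SimpleGraph V) (IH : IHyp (Fintype.card V))
    (hS : Sparse G) (hc : ¬ G.Colorable 3) (x y z w : V) (hxy : G.Adj x y) (hxz : G.Adj x z)
    (hxw : G.Adj x w) (hyz : G.Adj y z) (hyw : G.Adj y w) (hzw : z ≠ w) : False := by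
  classical
  have nxy := G.ne_of_adj hxy
  have nxz := G.ne_of_adj hxz
  have nxw := G.ne_of_adj hxw
  have nyz := G.ne_of_adj hyz
  have nyw := G.ne_of_adj hyw
  set S : Finset V := {x, y, z, w} with hSdef
  have hcard : S.card = 4 := by
    rw [hSdef]
    rw [Finset.card_insert_of_notMem, Finset.card_insert_of_notMem,
      Finset.card_insert_of_notMem, Finset.card_singleton]
    · simpa using hzw
    · simp [nyz, nyw]
    · simp [nxy, nxz, nxw]
  have h5 := five_le G IH hS hc
  have hne : S ≠ univ := by
    intro h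
    rw [h, Finset.card_univ] at hcard
    omega
  have h14 := claim10 G IH hS hc S (by omega) hne
  have c1 : 3 ≤ (nb G x ∩ S).card := by
    have h : ({y, z, w} : Finset V) ⊆ nb G x ∩ S := by
      intro t ht
      rw [mem_inter, mem_nb, hSdef]
      simp only [mem_insert, mem_singleton] at ht ⊢
      rcases ht with rfl | rfl | rfl
      · exact ⟨hxy, Or.inr (Or.inl rfl)⟩
      · exact ⟨hxz, Or.inr (Or.inr (Or.inl rfl))⟩
      · exact ⟨hxw, Or.inr (Or.inr (Or.inr rfl))⟩
    have h2 := Finset.card_le_card h
    rwa [Finset.card_eq_three.2 ⟨y, z, w, nyz, nyw, hzw, rfl⟩] at h2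
  have c2 : 3 ≤ (nb G y ∩ S).card := by
    have h : ({x, z, w} : Finset V) ⊆ nb G y ∩ S := by
      intro t ht
      rw [mem_inter, mem_nb, hSdef]
      simp only [mem_insert, mem_singleton] at ht ⊢
      rcases ht with rfl | rfl | rfl
      · exact ⟨hxy.symm, Or.inl rfl⟩
      · exact ⟨hyz, Or.inr (Or.inr (Or.inl rfl))⟩
      · exact ⟨hyw, Or.inr (Or.inr (Or.inr rfl))⟩
    have h2 := Finset.card_le_card h
    rwa [Finset.card_eq_three.2 ⟨x, z, w, nxz, nxw, hzw, rfl⟩] at h2
  have c3 : 2 ≤ (nb G z ∩ S).card := by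
    have h : ({x, y} : Finset V) ⊆ nb G z ∩ S := by
      intro t ht
      rw [mem_inter, mem_nb, hSdef]
      simp only [mem_insert, mem_singleton] at ht ⊢
      rcases ht with rfl | rfl
      · exact ⟨hxz.symm, Or.inl rfl⟩
      · exact ⟨hyz.symm, Or.inr (Or.inl rfl)⟩
    have h2 := Finset.card_le_card h
    rwa [Finset.card_pair nxy] at h2
  have c4 : 2 ≤ (nb G w ∩ S).card := by
    have h : ({x, y} : Finset V) ⊆ nb G w ∩ S := by
      intro t ht
      rw [mem_inter, mem_nb, hSdef]
      simp only [mem_insert, mem_singleton] at ht ⊢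
      rcases ht with rfl | rfl
      · exact ⟨hxw.symm, Or.inl rfl⟩
      · exact ⟨hyw.symm, Or.inr (Or.inl rfl)⟩
    have h2 := Finset.card_le_card h
    rwa [Finset.card_pair nxy] at h2
  have hsum : 10 ≤ eb G S S := by
    rw [eb_eq_sum]
    have h6 : ∑ v ∈ S, (nb G v ∩ S).card = (nb G x ∩ S).card + ((nb G y ∩ S).card +
        ((nb G z ∩ S).card + (nb G w ∩ S).card)) := by
      conv_lhs => rw [hSdef]
      rw [Finset.sum_insert (by simp [nxy, nxz, nxw]), Finset.sum_insert (by simp [nyz, nyw]),
        Finset.sum_insert (by simpa using hzw), Finset.sum_singleton]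
    omega
  unfold P at h14
  rw [hcard] at h14
  omega

end Pool.Agent.H32.BC
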