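import Pool.Agent.H32.BC.K12

set_option autoImplicit false

/-!
The theorem of Kostochka and Yancey for `k = 4` in the form: a graph all of whose nonempty vertex sets
have potential at least 3 is 3-colourable.

`one_three`: in a minimal counterexample a vertex `x` with exactly 3 neighbours has at most one
neighbour with exactly 3 neighbours. Proof: let `y ≠ z` be two such neighbours of `x` and `w` the
third neighbour of `x`. `claim12` for `(x, y)`: `z ~ w`. `claim12` for `(x, z)`: `y ~ w`. So `x` and `w`
are adjacent and both are adjacent to `y` and `z`: `no_diamond`.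

`ky`: strong induction on the number of vertices (`IHyp n` for all `n`); let `G` be a sparse graph which
is not 3-colourable, `IH` for fewer vertices. `T` = the vertices with 3 neighbours, `F` = the
others (at least 4 neighbours, `min_deg`). `eb G T F ≥ 2 |T|` (each vertex of `T` has at least 2
neighbours in `F` by `one_three`); `eb G F univ = ∑_{v ∈ F} |nb G v| ≥ 4 |F|` and
`eb G F univ ≥ eb G F T = eb G T F ≥ 2 |T|`; `eb G univ univ = 3 |T| + eb G F univ`. So
`3 eb G univ univ ≥ 10 (|T| + |F|)`: `P G univ ≤ 0`, contradiction (`V` is nonempty, otherwise `G` is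
3-colourable).
-/

namespace Pool.Agent.H32.BC

open Finset

variable {V : Type}

theorem one_three [Fintype V] [DecidableEq V] (G : SimpleGraph V) (IH : IHyp (Fintype.card V))
    (hS : Sparse G) (hc : ¬ G.Colorable 3) (x y z : V) (hx : (nb G x).card = 3)
    (hxy : G.Adj x y) (hy : (nb G y).card = 3) (hxz : G.Adj x z) (hz : (nb G z).card = 3) :
    y = z := by
  classical
  by_contra hyz
  have h1 : z ∈ (nb G x).erase y := by
    rw [mem_erase, mem_nb]
    exact ⟨fun h => hyz h.symm, hxz⟩
  have h2 : (((nb G x).erase y).erase z).card = 1 := by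
    rw [Finset.card_erase_of_mem h1, Finset.card_erase_of_mem ((mem_nb G x y).2 hxy), hx]
  obtain ⟨w, hw⟩ := Finset.card_eq_one.1 h2
  have hw1 : w ∈ ((nb G x).erase y).erase z := by rw [hw]; simp
  rw [mem_erase, mem_erase, mem_nb] at hw1
  obtain ⟨hwz, hwy, hxw⟩ := hw1
  have e1 : G.Adj z w := claim12 G IH hS hc x y z w hxy hx hy hxz hxw (fun h => hyz h.symm) hwy
    (fun h => hwz h.symm)
  have e2 : G.Adj y w := claim12 G IH hS hc x z y w hxz hx hz hxy hxw hyz hwz
    (fun h => hwy h.symm)
  exact no_diamond G IH hS hc x w y z hxw hxy hxz e2.symm e1.symm hyz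

theorem ky_core [Fintype V] [DecidableEq V] (G : SimpleGraph V) (IH : IHyp (Fintype.card V))
    (hS : Sparse G) : G.Colorable 3 := by
  classical
  by_contra hc
  have h5 := five_le G IH hS hc
  set T := univ.filter (fun v => (nb G v).card = 3) with hT
  set F := univ.filter (fun v => ¬ (nb G v).card = 3) with hF
  have hTF : T.card + F.card = Fintype.card V := by
    rw [hT, hF, Finset.card_filter_add_card_filter_not, Finset.card_univ]
  have hcover : ∀ v, v ∈ T ∨ v ∈ F := by
    intro v
    rw [hT, hF, mem_filter, mem_filter]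
    by_cases h : (nb G v).card = 3
    · exact Or.inl ⟨mem_univ _, h⟩
    · exact Or.inr ⟨mem_univ _, h⟩
  have htot : eb G univ univ = ∑ v ∈ T, (nb G v).card + ∑ v ∈ F, (nb G v).card := by
    rw [eb_eq_sum, hT, hF, Finset.sum_filter_add_sum_filter_not]
    exact Finset.sum_congr rfl fun v _ => by rw [Finset.inter_univ]
  have hsT : ∑ v ∈ T, (nb G v).card = T.card * 3 := by
    rw [Finset.sum_const_nat]
    intro v hv
    exact (mem_filter.1 hv).2
  have hsF : F.card * 4 ≤ ∑ v ∈ F, (nb G v).card := by
    rw [← smul_eq_mul]
    apply Finset.card_nsmul_le_sum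
    intro v hv
    have h1 := min_deg G IH hS hc v
    have h2 := (mem_filter.1 hv).2
    omega
  have hTF2 : T.card * 2 ≤ eb G T F := by
    rw [eb_eq_sum, ← smul_eq_mul]
    apply Finset.card_nsmul_le_sum
    intro v hv
    have hv3 := (mem_filter.1 hv).2
    have h1 : (nb G v ∩ T).card ≤ 1 := by
      rw [Finset.card_le_one]
      intro y hy z hz
      rw [mem_inter, mem_nb] at hy hz
      exact one_three G IH hS hc v y z hv3 hy.1 (mem_filter.1 hy.2).2 hz.1 (mem_filter.1 hz.2).2
    have h2 : nb G v ⊆ (nb G v ∩ T) ∪ (nb G v ∩ F) := by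
      intro t ht
      rw [mem_union, mem_inter, mem_inter]
      rcases hcover t with h | h
      · exact Or.inl ⟨ht, h⟩
      · exact Or.inr ⟨ht, h⟩
    have h3 := (Finset.card_le_card h2).trans (Finset.card_union_le _ _)
    omega
  have hF2 : eb G T F ≤ ∑ v ∈ F, (nb G v).card := by
    rw [eb_comm, eb_eq_sum]
    exact Finset.sum_le_sum fun v _ => Finset.card_le_card Finset.inter_subset_left
  have hne : (univ : Finset V).Nonempty := by
    rw [← Finset.card_pos, Finset.card_univ]
    omega
  have h6 := hS univ hne
  unfold P at h6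
  rw [Finset.card_univ, htot, hsT] at h6
  omega

theorem all_ihyp (n : ℕ) : IHyp n := by
  classical
  induction n with
  | zero =>
    intro W _ h
    exact absurd h (Nat.not_lt_zero _)
  | succ n ih =>
    intro W _ h H hS
    have : DecidableEq W := Classical.decEq W
    by_cases h1 : Fintype.card W < n
    · exact ih W h1 H hS
    · have h2 : Fintype.card W = n := by omega
      apply ky_core H _ hS
      rw [h2]
      exact ih

theorem ky (W : Type) [Fintype W] (G : SimpleGraph W) (hS : Sparse G) : G.Colorable 3 :=
  all_ihyp (Fintype.card W + 1) W (Nat.lt_succ_self _) G hS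

end Pool.Agent.H32.BC
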