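import Pool.Agent.H32.BC.KBasic

set_option autoImplicit false

/-!
The key lemma of Kostochka and Yancey (replace the coloured set `R` by a triangle).

Proof. `Y` is the graph on `{v // v ∉ R} ⊕ Fin 3`: `inl u ~ inl v` iff `G.Adj u v`; `inr i ~ inr j` iff
`i ≠ j`; `inl u ~ inr i` iff there is `w ∈ R` with `φ w = i` and `G.Adj u w`.
(1) `Y` is not 3-colourable: from `ψ : Y → Fin 3` colour `G` by `v ∉ R ↦ ψ (inl v)`,
`v ∈ R ↦ ψ (inr (φ v))`; this is proper (inside `R`: `φ` is proper and the three values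
`ψ (inr i)` are distinct), contradiction to `hc`.
(2) `card Y = card V - card R + 3 < card V`, so by `IH` `Y` is not sparse: a nonempty `U` with
`P Y U < 6`, so `≤ 4` (`P_even`). Write `U = W ∪ A`, `W` a set of vertices outside `R` (as a finset of
`V`), `A : Finset (Fin 3)`. If `A = ∅` then `P G W = P Y U < 6` and `W` is nonempty, contradiction
to `hS`.
(3) `P Y U = P G W + 10 |A| - 3 |A| (|A| - 1) - 6 e_Y(W, A)`, and
`e_Y(W, A) ≤ eb G W (R.filter (φ ∈ A))` (map `(u, i)` to some `(u, w)`), and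
`P G (W ∪ R) = P G W + P G R - 6 eb G W R`. Add up.
-/

namespace Pool.Agent.H32.BC

open Finset

variable {V : Type}

/-- the graph in which `R` is replaced by a triangle -/
def yG (G : SimpleGraph V) (R : Finset V) (φ : V → Fin 3) :
    SimpleGraph ({v // v ∉ R} ⊕ Fin 3) where
  Adj x y := match x, y with
    | Sum.inl u, Sum.inl v => G.Adj u v
    | Sum.inr i, Sum.inr j => i ≠ j
    | Sum.inl u, Sum.inr i => ∃ w ∈ R, φ w = i ∧ G.Adj u w
    | Sum.inr i, Sum.inl u => ∃ w ∈ R, φ w = i ∧ G.Adj u w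
  symm := by
    constructor
    rintro (u | i) (v | j) h
    · exact G.symm.symm _ _ h
    · exact h
    · exact h
    · exact h.symm
  loopless := by
    constructor
    rintro (u | i) h
    · exact G.loopless.irrefl _ h
    · exact h rfl

theorem yG_not_colorable (G : SimpleGraph V) (R : Finset V) (φ : V → Fin 3)
    (hφ : ProperOn G R φ) (hc : ¬ G.Colorable 3) : ¬ (yG G R φ).Colorable 3 := by
  classical
  rintro ⟨C⟩
  apply hc
  refine ⟨SimpleGraph.Coloring.mk
    (fun v => if h : v ∈ R then C (Sum.inr (φ v)) else C (Sum.inl ⟨v, h⟩)) ?_⟩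
  intro u v huv
  by_cases hu : u ∈ R
  · by_cases hv : v ∈ R
    · rw [dif_pos hu, dif_pos hv]
      have h1 : φ u ≠ φ v := hφ u hu v hv huv
      exact C.valid (show (yG G R φ).Adj (Sum.inr (φ u)) (Sum.inr (φ v)) from h1)
    · rw [dif_pos hu, dif_neg hv]
      exact C.valid (show (yG G R φ).Adj (Sum.inr (φ u)) (Sum.inl ⟨v, hv⟩) from
        ⟨u, hu, rfl, huv.symm⟩)
  · by_cases hv : v ∈ R
    · rw [dif_neg hu, dif_pos hv]
      exact C.valid (show (yG G R φ).Adj (Sum.inl ⟨u, hu⟩) (Sum.inr (φ v)) from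
        ⟨v, hv, rfl, huv⟩)
    · rw [dif_neg hu, dif_neg hv]
      exact C.valid (show (yG G R φ).Adj (Sum.inl ⟨u, hu⟩) (Sum.inl ⟨v, hv⟩) from huv)

theorem yLemma [Fintype V] [DecidableEq V] (G : SimpleGraph V) (IH : IHyp (Fintype.card V))
    (hS : Sparse G) (hc : ¬ G.Colorable 3) (R : Finset V) (h4 : 4 ≤ R.card) (φ : V → Fin 3)
    (hφ : ProperOn G R φ) :
    ∃ (W : Finset V) (A : Finset (Fin 3)), Disjoint W R ∧ A.Nonempty ∧
      P G (W ∪ R) + (10 * (A.card : ℤ) - 3 * ((A.card : ℤ) * ((A.card : ℤ) - 1))) +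
        6 * ((eb G W R : ℤ) - (eb G W (R.filter (fun v => φ v ∈ A)) : ℤ)) ≤ 4 + P G R := by
  classical
  have hcard : Fintype.card ({v // v ∉ R} ⊕ Fin 3) < Fintype.card V := by
    rw [Fintype.card_sum, Fintype.card_fin, Fintype.card_subtype]
    have h1 := Finset.card_filter_add_card_filter_not (s := (univ : Finset V)) (fun v => v ∈ R)
    have h2 : (univ.filter (fun v => v ∈ R)) = R := by ext v; simp
    rw [h2, Finset.card_univ] at h1
    omega
  have hns : ¬ Sparse (yG G R φ) := fun h => yG_not_colorable G R φ hφ hc (IH _ hcard _ h)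
  unfold Sparse at hns
  push Not at hns
  obtain ⟨U, hU, hPU⟩ := hns
  have hPU' : P (yG G R φ) U ≤ 4 := by
    obtain ⟨k, hk⟩ := P_even (yG G R φ) U
    omega
  let inlE : {v // v ∉ R} ↪ ({v // v ∉ R} ⊕ Fin 3) := ⟨Sum.inl, Sum.inl_injective⟩
  let inrE : Fin 3 ↪ ({v // v ∉ R} ⊕ Fin 3) := ⟨Sum.inr, Sum.inr_injective⟩
  let sub : {v // v ∉ R} ↪ V := Function.Embedding.subtype (fun v => v ∉ R)
  let U0 : Finset {v // v ∉ R} := univ.filter (fun u => Sum.inl u ∈ U)
  let A : Finset (Fin 3) := univ.filter (fun i => Sum.inr i ∈ U)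
  have hUeq : U = U0.map inlE ∪ A.map inrE := by
    ext x
    rcases x with u | i
    · simp [U0, A, inlE, inrE]
    · simp [U0, A, inlE, inrE]
  have hdisj : Disjoint (U0.map inlE) (A.map inrE) := by
    rw [Finset.disjoint_left]
    intro x h1 h2
    rw [Finset.mem_map] at h1 h2
    obtain ⟨u, _, rfl⟩ := h1
    obtain ⟨i, _, h⟩ := h2
    simp [inlE, inrE] at h
  have hL : P (yG G R φ) (U0.map inlE) = P G (U0.map sub) := by
    rw [← P_map (yG G R φ) (G.comap sub) inlE U0 (fun x _ y _ => Iff.rfl),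
      ← P_map G (G.comap sub) sub U0 (fun x _ y _ => Iff.rfl)]
  have hWR : Disjoint (U0.map sub) R := by
    rw [Finset.disjoint_left]
    intro x h1 h2
    rw [Finset.mem_map] at h1
    obtain ⟨u, _, rfl⟩ := h1
    exact u.2 h2
  have hA : A.Nonempty := by
    by_contra hA
    rw [Finset.not_nonempty_iff_eq_empty] at hA
    rw [hA, Finset.map_empty, Finset.union_empty] at hUeq
    have hne : (U0.map sub).Nonempty := by
      rw [Finset.map_nonempty, ← Finset.map_nonempty (f := inlE), ← hUeq]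
      exact hU
    have := hS _ hne
    rw [← hL, ← hUeq] at this
    omega
  have hPA : 10 * (A.card : ℤ) - 3 * ((A.card : ℤ) * ((A.card : ℤ) - 1)) ≤
      P (yG G R φ) (A.map inrE) := by
    unfold P
    have h1 := eb_self_le (yG G R φ) (A.map inrE)
    rw [Finset.card_map] at h1 ⊢
    have h2 : ((A.card * (A.card - 1) : ℕ) : ℤ) = (A.card : ℤ) * ((A.card : ℤ) - 1) := by
      have : 1 ≤ A.card := hA.card_pos
      push_cast [Nat.cast_sub this]
      ring
    rw [← h2]
    omega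
  have heb : eb (yG G R φ) (U0.map inlE) (A.map inrE) ≤
      eb G (U0.map sub) (R.filter (fun v => φ v ∈ A)) := by
    unfold eb
    apply Finset.card_le_card_of_surjOn (fun p : V × V =>
      ((if h : p.1 ∉ R then Sum.inl ⟨p.1, h⟩ else Sum.inr 0 : {v // v ∉ R} ⊕ Fin 3),
        (Sum.inr (φ p.2) : {v // v ∉ R} ⊕ Fin 3)))
    rintro ⟨x, y⟩ hxy
    simp only [Finset.coe_filter, Set.mem_setOf_eq, mem_product, mem_map] at hxy
    obtain ⟨⟨⟨u, hu, rfl⟩, ⟨i, hi, rfl⟩⟩, hadj⟩ := hxy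
    obtain ⟨w, hw, hwi, huw⟩ := hadj
    refine ⟨((u : V), w), ?_, ?_⟩
    · simp only [Finset.coe_filter, Set.mem_setOf_eq, mem_product, mem_map, mem_filter]
      exact ⟨⟨⟨u, hu, rfl⟩, hw, by rw [hwi]; exact hi⟩, huw⟩
    · simp only [Prod.mk.injEq]
      constructor
      · rw [dif_pos u.2]
        rfl
      · rw [hwi]
        rfl
  refine ⟨U0.map sub, A, hWR, hA, ?_⟩
  rw [P_union G hWR]
  have h5 : P (yG G R φ) U = P (yG G R φ) (U0.map inlE) + P (yG G R φ) (A.map inrE) -
      6 * (eb (yG G R φ) (U0.map inlE) (A.map inrE) : ℤ) := by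
    conv_lhs => rw [hUeq]
    exact P_union _ hdisj
  rw [h5, hL] at hPU'
  omega

end Pool.Agent.H32.BC
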