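import Pool.Agent.H32.BC.Ext
import Pool.Agent.H32.BC.G5Sparse
import Pool.Agent.H32.BC.KFin

set_option autoImplicit false

/-!
Balanced 3-colourings of planar graphs without 3-cycles and 4-cycles.
-/

namespace Pool.Agent.H32.BC

open Finset Pool.Agent.H29.Tor

theorem main5 (V : Type) [Fintype V] (G : SimpleGraph V) (hG : IsPlanar G)
    (h3 : G.CliqueFree 3)
    (h4 : ∀ a b c d, a ≠ c → b ≠ d → ¬ (G.Adj a b ∧ G.Adj b c ∧ G.Adj c d ∧ G.Adj d a))
    (hn : 2 ≤ Fintype.card V) :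
    ∃ c : G.Coloring (Fin 3), ∀ i, 2 * Nat.card {v // c v = i} ≤ Fintype.card V := by
  classical
  have htf : ∀ a b c, G.Adj a b → G.Adj b c → ¬ G.Adj a c := by
    intro a b c hab hbc hac
    exact h3 {a, b, c} (SimpleGraph.is3Clique_triple_iff.2 ⟨hab, hac, hbc⟩)
  have hcol : G.Colorable 3 := ky V G (g5_sparse G hG htf h4)
  have hμ : ∀ x y, x ≠ y → Nat.card {v // G.Adj x v ∧ G.Adj y v} ≤ 1 := by
    intro x y hxy
    rw [Nat.card_eq_fintype_card, Fintype.card_le_one_iff_subsingleton]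
    constructor
    rintro ⟨u, hu1, hu2⟩ ⟨v, hv1, hv2⟩
    by_contra hne
    have hne' : u ≠ v := fun h => hne (Subtype.ext h)
    exact h4 x u y v hxy hne' ⟨hu1, hu2.symm, hv2, hv1.symm⟩
  obtain ⟨c, hc, hcard⟩ := mu_ext G hG htf hn hcol 1 hμ
  refine ⟨SimpleGraph.Coloring.mk c (fun {u v} h => hc u v h), fun i => ?_⟩
  have e : Nat.card {v // c v = i} = (univ.filter (fun v => c v = i)).card := by
    rw [Nat.card_eq_fintype_card, Fintype.card_subtype]
  change 2 * Nat.card {v // c v = i} ≤ Fintype.card V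
  rw [e]
  rcases hcard i with h | h
  · exact h
  · omega

end Pool.Agent.H32.BC
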